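import Mathlib

set_option autoImplicit false

namespace Pool.Agent.MP_76aa63_al

open CategoryTheory MvPolynomial

/-- The monomial ideal of `S = k[x_1, …, x_n]` generated by the monomials whose exponent vectors
lie in the finite set `A`. -/
noncomputable def monomialIdeal (k : Type) [Field k] {n : ℕ} (A : Finset (Fin n →₀ ℕ)) :
    Ideal (MvPolynomial (Fin n) k) :=
  Ideal.span ((fun a => monomial a (1 : k)) '' (A : Set (Fin n →₀ ℕ)))

/-- The `i`-th total Betti number of an ideal `I` of `S = k[x_1, …, x_n]`: the length of the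
`S`-module `Tor_i (I, k)`, where `k = S / (x_1, …, x_n)`. This module is annihilated by the
variables, so its length is its dimension over `k`. -/
noncomputable def betti {k : Type} [Field k] {n : ℕ} (i : ℕ)
    (I : Ideal (MvPolynomial (Fin n) k)) : ℕ∞ :=
  Module.length (MvPolynomial (Fin n) k)
    (((Tor (ModuleCat.{0} (MvPolynomial (Fin n) k)) i).obj
        (ModuleCat.of (MvPolynomial (Fin n) k) I)).obj
      (ModuleCat.of (MvPolynomial (Fin n) k)
        (MvPolynomial (Fin n) k ⧸
          Ideal.span (Set.range (X : Fin n → MvPolynomial (Fin n) k)))))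

/-- `P` is the `i`-th Kodiyalam polynomial over `k` of the monomial ideal given by `A`:
`β_i (I ^ ℓ) = P ℓ` for all large `ℓ`. -/
def IsKodiyalam (k : Type) [Field k] {n : ℕ} (A : Finset (Fin n →₀ ℕ)) (i : ℕ)
    (P : Polynomial ℚ) : Prop :=
  ∃ ℓ₀ : ℕ, ∀ ℓ : ℕ, ℓ₀ ≤ ℓ → ∃ b : ℕ, betti i (monomialIdeal k A ^ ℓ) = (b : ℕ∞) ∧
    P.eval (ℓ : ℚ) = (b : ℚ)

end Pool.Agent.MP_76aa63_al
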