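import Mathlib

set_option autoImplicit false

namespace Pool.Agent.MP_76aa63_al

open Finset

universe u

section signs

variable {V : Type} [LinearOrder V]

/-- Sign of inserting `v` in `τ`. -/
def sgn (v : V) (τ : Finset V) : ℤ := (-1) ^ (τ.filter (· < v)).card

theorem sgn_mul_self (v : V) (τ : Finset V) : sgn v τ * sgn v τ = 1 := by
  unfold sgn
  rw [← mul_pow]
  simp

theorem sgn_insert (v w : V) (τ : Finset V) (hv : v ∉ τ) :
    sgn w (insert v τ) = (if v < w then -1 else 1) * sgn w τ := by
  unfold sgn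
  rw [Finset.filter_insert]
  split_ifs with h
  · rw [Finset.card_insert_of_notMem (by simp [hv]), pow_succ]
    ring
  · simp

theorem sgn_swap (v w : V) (τ : Finset V) (hv : v ∉ τ) (hw : w ∉ τ) (hvw : v ≠ w) :
    sgn w (insert v τ) * sgn v (insert w τ) = - (sgn v τ * sgn w τ) := by
  rw [sgn_insert v w τ hv, sgn_insert w v τ hw]
  rcases lt_or_gt_of_ne hvw with h | h
  · rw [if_pos h, if_neg (not_lt.2 h.le)]
    ring
  · rw [if_pos h, if_neg (not_lt.2 h.le)]
    ring

theorem sgn_swap' (v w : V) (τ : Finset V) (hv : v ∉ τ) (hw : w ∉ τ) (hvw : v ≠ w) :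
    sgn v τ * sgn w (insert v τ) = - (sgn w τ * sgn v (insert w τ)) := by
  rw [sgn_insert v w τ hv, sgn_insert w v τ hw]
  rcases lt_or_gt_of_ne hvw with h | h
  · rw [if_pos h, if_neg (not_lt.2 h.le)]
    ring
  · rw [if_pos h, if_neg (not_lt.2 h.le)]
    ring

end signs

section plain

variable {V : Type} [LinearOrder V] [Fintype V] {S : Type u} [AddCommGroup S]

/-- The plain simplex differential. -/
def D (c : Finset V → S) : Finset V → S := fun τ =>
  ∑ v ∈ τᶜ, sgn v τ • c (insert v τ)

theorem D_add (c c' : Finset V → S) : D (c + c') = D c + D c' := by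
  funext τ
  simp only [D, Pi.add_apply, smul_add, Finset.sum_add_distrib]

theorem D_sum' {ι : Type} [Fintype ι] (c : ι → Finset V → S) :
    D (∑ i, c i) = ∑ i, D (c i) := by
  funext τ
  simp only [D, Finset.sum_apply, Finset.smul_sum]
  rw [Finset.sum_comm]

theorem D_sum {ι : Type} (s : Finset ι) (c : ι → Finset V → S) :
    D (∑ i ∈ s, c i) = ∑ i ∈ s, D (c i) := by
  funext τ
  simp only [D, Finset.sum_apply, Finset.smul_sum]
  rw [Finset.sum_comm]

/-- Partial homotopy at the vertex `v`. -/
def hv (v : V) (π : S →+ S) (c : Finset V → S) : Finset V → S := fun σ =>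
  if v ∈ σ then sgn v (σ.erase v) • π (c (σ.erase v)) else 0

theorem D_hv (v : V) (π : S →+ S) (c : Finset V → S) :
    D (hv v π c) + hv v π (D c) = fun τ => π (c τ) := by
  funext τ
  rw [Pi.add_apply]
  by_cases hvτ : v ∈ τ
  · -- both terms
    have hρ : v ∉ τ.erase v := by simp
    have hτ : insert v (τ.erase v) = τ := Finset.insert_erase hvτ
    have h1 : D (hv v π c) τ = ∑ w ∈ τᶜ,
        (sgn w τ * sgn v (insert w (τ.erase v))) • π (c (insert w (τ.erase v))) := by
      unfold D
      apply Finset.sum_congr rfl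
      intro w hw
      rw [Finset.mem_compl] at hw
      have hwv : w ≠ v := by
        rintro rfl
        exact hw hvτ
      have h2 : (insert w τ).erase v = insert w (τ.erase v) :=
        Finset.erase_insert_of_ne hwv
      rw [hv, if_pos (Finset.mem_insert_of_mem hvτ), h2, smul_smul]
    have h3 : hv v π (D c) τ = π (c τ) + ∑ w ∈ τᶜ,
        (sgn v (τ.erase v) * sgn w (τ.erase v)) • π (c (insert w (τ.erase v))) := by
      rw [hv, if_pos hvτ]
      have h4 : (τ.erase v)ᶜ = insert v τᶜ := by
        ext x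
        simp only [Finset.mem_compl, Finset.mem_erase, Finset.mem_insert]
        tauto
      unfold D
      rw [h4, Finset.sum_insert (by simp [hvτ]), map_add, smul_add, hτ, map_zsmul, smul_smul,
        sgn_mul_self, one_smul, map_sum, Finset.smul_sum]
      congr 1
      apply Finset.sum_congr rfl
      intro w _
      rw [map_zsmul, smul_smul]
    rw [h1, h3, add_comm, add_assoc, ← Finset.sum_add_distrib]
    rw [Finset.sum_eq_zero, add_zero]
    intro w hw
    rw [Finset.mem_compl] at hw
    have hwv : v ≠ w := by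
      rintro rfl
      exact hw hvτ
    have h5 := sgn_swap v w (τ.erase v) hρ (fun h => hw (Finset.mem_of_mem_erase h)) hwv
    rw [hτ] at h5
    rw [h5, ← add_smul]
    simp
  · have h3 : hv v π (D c) τ = 0 := by rw [hv, if_neg hvτ]
    rw [h3, add_zero]
    unfold D
    rw [Finset.sum_eq_single v]
    · rw [hv, if_pos (Finset.mem_insert_self v τ), Finset.erase_insert hvτ, smul_smul,
        sgn_mul_self, one_smul]
    · intro w _ hwv
      rw [hv, if_neg, smul_zero]
      intro h
      rcases Finset.mem_insert.1 h with h | h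
      · exact hwv h.symm
      · exact hvτ h
    · intro h
      exact absurd (Finset.mem_compl.2 hvτ) h

theorem D_D (c : Finset V → S) : D (D c) = 0 := by
  funext τ
  rw [Pi.zero_apply]
  unfold D
  simp_rw [Finset.smul_sum, smul_smul]
  rw [Finset.sum_sigma']
  refine Finset.sum_involution (fun x _ => ⟨x.2, x.1⟩) ?_ ?_ ?_ ?_
  · rintro ⟨v, w⟩ hx
    simp only [Finset.mem_sigma, Finset.mem_compl, Finset.mem_insert, not_or] at hx
    obtain ⟨hv, hwv, hw⟩ := hx
    dsimp only
    rw [Finset.insert_comm w v τ, ← add_smul, sgn_swap' v w τ hv hw (Ne.symm hwv)]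
    simp
  · rintro ⟨v, w⟩ hx _ h
    simp only [Finset.mem_sigma, Finset.mem_compl, Finset.mem_insert, not_or] at hx
    simp only [Sigma.mk.injEq, heq_eq_eq] at h
    exact hx.2.1 h.1
  · rintro ⟨v, w⟩ hx
    simp only [Finset.mem_sigma, Finset.mem_compl, Finset.mem_insert, not_or] at hx ⊢
    exact ⟨hx.2.2, fun h => hx.2.1 h.symm, hx.1⟩
  · rintro ⟨v, w⟩ _
    rfl

end plain

end Pool.Agent.MP_76aa63_al
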