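import Mathlib
import Pool.Agent.MP_76aa63_al.Taylor

set_option autoImplicit false

namespace Pool.Agent.MP_76aa63_al

open Finset MvPolynomial

section proj

variable {σ : Type} {k : Type} [Field k]

open Classical in
/-- Projection of a polynomial to the monomials satisfying `p`. -/
noncomputable def proj (p : (σ →₀ ℕ) → Prop) : MvPolynomial σ k →+ MvPolynomial σ k where
  toFun f := ∑ b ∈ f.support.filter p, monomial b (coeff b f)
  map_zero' := by simp
  map_add' := by
    intro f g
    have key : ∀ (f : MvPolynomial σ k) (m : σ →₀ ℕ),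
        coeff m (∑ b ∈ f.support.filter p, monomial b (coeff b f)) =
          if p m then coeff m f else 0 := by
      intro f m
      rw [coeff_sum]
      simp_rw [coeff_monomial]
      rw [Finset.sum_ite_eq']
      by_cases hm : p m
      · by_cases hm2 : coeff m f = 0
        · simp [hm2]
        · simp [hm, hm2]
      · simp [hm]
    ext m
    rw [key, coeff_add, coeff_add, key, key]
    split_ifs <;> simp

open Classical in
theorem coeff_proj (p : (σ →₀ ℕ) → Prop) (f : MvPolynomial σ k) (m : σ →₀ ℕ) :
    coeff m (proj p f) = if p m then coeff m f else 0 := by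
  change coeff m (∑ b ∈ f.support.filter p, monomial b (coeff b f)) = _
  rw [coeff_sum]
  simp_rw [coeff_monomial]
  rw [Finset.sum_ite_eq']
  by_cases hm : p m
  · by_cases hm2 : coeff m f = 0
    · simp [hm2]
    · simp [hm, hm2]
  · simp [hm]

end proj

section labelled

variable {V : Type} [LinearOrder V] [Fintype V] {σ : Type} {k : Type} [Field k]
  (a : V → (σ →₀ ℕ))

/-- Label (exponent of the least common multiple). -/
noncomputable def lab (τ : Finset V) : σ →₀ ℕ := τ.sup a

theorem lab_mono {τ τ' : Finset V} (h : τ ⊆ τ') : lab a τ ≤ lab a τ' := Finset.sup_mono h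

theorem le_lab {v : V} {τ : Finset V} (h : v ∈ τ) : a v ≤ lab a τ := Finset.le_sup h

theorem lab_insert (v : V) (τ : Finset V) : lab a (insert v τ) = a v ⊔ lab a τ :=
  Finset.sup_insert

/-- The labelled differential. -/
noncomputable def dd (c : Finset V → MvPolynomial σ k) : Finset V → MvPolynomial σ k := fun τ =>
  ∑ v ∈ τᶜ, sgn v τ • (monomial (lab a (insert v τ) - lab a τ) 1 * c (insert v τ))

/-- Embedding of the labelled complex. -/
noncomputable def E (c : Finset V → MvPolynomial σ k) : Finset V → MvPolynomial σ k := fun τ =>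
  monomial (lab a τ) 1 * c τ

theorem E_dd (c : Finset V → MvPolynomial σ k) : E a (dd a c) = D (E a c) := by
  funext τ
  simp only [E, dd, D, Finset.mul_sum]
  apply Finset.sum_congr rfl
  intro v _
  rw [mul_smul_comm, ← mul_assoc, monomial_mul, one_mul,
    add_tsub_cancel_of_le (lab_mono a (Finset.subset_insert v τ))]

theorem E_injective : Function.Injective (E (k := k) a) := by
  intro c c' h
  funext τ
  have h1 := congrFun h τ
  simp only [E] at h1
  have h2 : (monomial (lab a τ) (1 : k)) ≠ 0 := by
    simp
  exact mul_left_cancel₀ h2 h1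

theorem dd_dd (c : Finset V → MvPolynomial σ k) : dd a (dd a c) = 0 := by
  apply E_injective a
  rw [E_dd, E_dd, D_D]
  funext τ
  simp [E]

/-- `v` is the smallest vertex whose label divides `b`. -/
def First (v : V) (b : σ →₀ ℕ) : Prop := a v ≤ b ∧ ∀ w, w < v → ¬ a w ≤ b

theorem exists_first {b : σ →₀ ℕ} {v : V} (h : a v ≤ b) : ∃ w, First a w b := by
  classical
  have hne : (Finset.univ.filter fun v => a v ≤ b).Nonempty := ⟨v, by simp [h]⟩
  refine ⟨(Finset.univ.filter fun v => a v ≤ b).min' hne, ?_, ?_⟩
  · have := Finset.min'_mem _ hne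
    simpa using this
  · intro w hw hle
    have := Finset.min'_le (Finset.univ.filter fun v => a v ≤ b) w (by simp [hle])
    exact absurd hw (not_lt.2 this)

theorem first_unique {b : σ →₀ ℕ} {v w : V} (hv : First a v b) (hw : First a w b) : v = w := by
  rcases lt_trichotomy v w with h | h | h
  · exact absurd hv.1 (hw.2 v h)
  · exact h
  · exact absurd hw.1 (hv.2 w h)

theorem exists_lift {σ : Type} {k : Type} [Field k] (e : σ →₀ ℕ) (f : MvPolynomial σ k)
    (h : ∀ b, coeff b f ≠ 0 → e ≤ b) : ∃ g, f = monomial e 1 * g := by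
  have : monomial e (1 : k) ∣ f := by
    rw [f.as_sum]
    apply Finset.dvd_sum
    intro b hb
    have h1 := h b (mem_support_iff.1 hb)
    refine ⟨monomial (b - e) (coeff b f), ?_⟩
    rw [monomial_mul, one_mul, add_tsub_cancel_of_le h1]
  exact this

theorem taylor_exact (j : ℕ) (hj : 1 ≤ j) (c : Finset V → MvPolynomial σ k)
    (hc : ∀ τ, τ.card ≠ j → c τ = 0) (hdc : dd a c = 0) :
    ∃ c' : Finset V → MvPolynomial σ k, (∀ τ, τ.card ≠ j + 1 → c' τ = 0) ∧ dd a c' = c ∧
      ∀ v₁, (∀ v, v₁ ≤ v) → ∀ τ, a v₁ ≤ lab a τ → v₁ ∉ τ → c' τ = 0 := by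
  classical
  let e : Finset V → MvPolynomial σ k :=
    ∑ v, hv v (proj (First a v)) (E a c)
  have hlow : ∀ τ b, coeff b (E a c τ) ≠ 0 → lab a τ ≤ b := by
    intro τ b hb
    simp only [E] at hb
    rw [coeff_monomial_mul'] at hb
    by_contra h
    rw [if_neg h] at hb
    exact hb rfl
  have he : ∀ τ b, coeff b (e τ) ≠ 0 →
      lab a τ ≤ b ∧ ∃ v ∈ τ, First a v b ∧ (τ.erase v).card = j := by
    intro τ b hb
    simp only [e, Finset.sum_apply, coeff_sum] at hb
    obtain ⟨v, _, hb⟩ := Finset.exists_ne_zero_of_sum_ne_zero hb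
    rw [hv] at hb
    split_ifs at hb with hvτ
    · have h1 : coeff b (proj (First a v) (E a c (τ.erase v))) ≠ 0 := by
        intro h0
        apply hb
        change coeffAddMonoidHom b (sgn v (τ.erase v) •
          (proj (First a v)) (E a c (τ.erase v))) = 0
        rw [map_zsmul]
        change _ • coeff b ((proj (First a v)) (E a c (τ.erase v))) = 0
        rw [h0, smul_zero]
      rw [coeff_proj] at h1
      split_ifs at h1 with hf
      · have h2 := hlow _ _ h1
        refine ⟨?_, v, hvτ, hf, ?_⟩
        · rw [← Finset.insert_erase hvτ, lab_insert]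
          exact sup_le hf.1 h2
        · by_contra hcard
          apply h1
          simp [E, hc _ hcard]
      · exact absurd rfl h1
    · exact absurd (coeff_zero b) hb
  have hlift : ∀ τ, ∃ g, e τ = monomial (lab a τ) 1 * g := fun τ =>
    exists_lift (lab a τ) (e τ) fun b hb => (he τ b hb).1
  choose c' hc' using hlift
  have hEc' : E a c' = e := by
    funext τ
    exact (hc' τ).symm
  have hzero : ∀ τ, e τ = 0 → c' τ = 0 := by
    intro τ hτ
    have h1 := hc' τ
    rw [hτ] at h1
    rcases mul_eq_zero.1 h1.symm with h2 | h2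
    · simp at h2
    · exact h2
  refine ⟨c', ?_, ?_, ?_⟩
  · intro τ hτ
    apply hzero
    ext b
    rw [coeff_zero]
    by_contra hb
    obtain ⟨_, v, hvτ, _, hcard⟩ := he τ b hb
    rw [Finset.card_erase_of_mem hvτ] at hcard
    have := Finset.card_pos.2 ⟨v, hvτ⟩
    omega
  · apply E_injective a
    rw [E_dd, hEc']
    have hD0 : D (E a c) = 0 := by
      rw [← E_dd, hdc]
      funext τ
      simp [E]
    have h1 : D e = ∑ v, D (hv v (proj (First a v)) (E a c)) := D_sum' _
    have h2 : ∀ v, D (hv v (proj (First a v)) (E a c)) =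
        fun τ => proj (First a v) (E a c τ) := by
      intro v
      have h3 := D_hv v (proj (First a v)) (E a c)
      rw [hD0] at h3
      have h4 : hv v (proj (σ := σ) (k := k) (First a v)) (0 : Finset V → MvPolynomial σ k) = 0 := by
        funext τ
        simp [hv]
      rw [h4, add_zero] at h3
      exact h3
    rw [h1]
    simp_rw [h2]
    funext τ
    rw [Finset.sum_apply]
    ext b
    rw [coeff_sum]
    simp_rw [coeff_proj]
    by_cases hb : coeff b (E a c τ) = 0
    · simp [hb]
    · have h5 := hlow _ _ hb
      have h6 : τ.Nonempty := by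
        rw [← Finset.card_pos]
        by_contra h0
        have : τ.card ≠ j := by omega
        apply hb
        simp [E, hc _ this]
      obtain ⟨v, hvτ⟩ := h6
      obtain ⟨w, hw⟩ := exists_first a ((le_lab a hvτ).trans h5)
      rw [Finset.sum_eq_single w]
      · rw [if_pos hw]
      · intro w' _ hne
        rw [if_neg]
        intro hw'
        exact hne (first_unique a hw' hw)
      · intro h
        exact absurd (Finset.mem_univ w) h
  · intro v₁ hv₁ τ hle hnot
    apply hzero
    ext b
    rw [coeff_zero]
    by_contra hb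
    obtain ⟨hlab, v, hvτ, hfirst, _⟩ := he τ b hb
    have hne : v₁ ≠ v := by
      rintro rfl
      exact hnot hvτ
    exact hfirst.2 v₁ (lt_of_le_of_ne (hv₁ v) hne) (hle.trans hlab)

end labelled

end Pool.Agent.MP_76aa63_al
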