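import Mathlib

set_option autoImplicit false

namespace Pool.Agent.MP_76aa63_al

open CategoryTheory Limits MonoidalCategory

universe u

section les

variable {R : Type u} [CommRing R]

noncomputable section

/-- Chain complex computing `Tor (X, Y)`. -/
def cx (X Y : ModuleCat.{u} R) : ChainComplex (ModuleCat.{u} R) ℕ :=
  (((tensoringLeft (ModuleCat.{u} R)).obj X).mapHomologicalComplex _).obj
    (projectiveResolution Y).complex

def cxMap {X X' : ModuleCat.{u} R} (f : X ⟶ X') (Y : ModuleCat.{u} R) : cx X Y ⟶ cx X' Y :=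
  (NatTrans.mapHomologicalComplex ((tensoringLeft (ModuleCat.{u} R)).map f) _).app
    (projectiveResolution Y).complex

def torIso (X Y : ModuleCat.{u} R) (n : ℕ) :
    ((Tor (ModuleCat.{u} R) n).obj X).obj Y ≅ (cx X Y).homology n :=
  (projectiveResolution Y).isoLeftDerivedObj ((tensoringLeft (ModuleCat.{u} R)).obj X) n

theorem cxMap_f {X X' : ModuleCat.{u} R} (f : X ⟶ X') (Y : ModuleCat.{u} R) (i : ℕ) :
    (cxMap f Y).f i = f ▷ (projectiveResolution Y).complex.X i := rfl

theorem cxMap_comp {X X' X'' : ModuleCat.{u} R} (f : X ⟶ X') (g : X' ⟶ X'')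
    (Y : ModuleCat.{u} R) : cxMap (f ≫ g) Y = cxMap f Y ≫ cxMap g Y := by
  apply HomologicalComplex.hom_ext
  intro i
  rw [HomologicalComplex.comp_f, cxMap_f, cxMap_f, cxMap_f, comp_whiskerRight]
  rfl

theorem cxMap_zero {X X' : ModuleCat.{u} R} (Y : ModuleCat.{u} R) :
    cxMap (0 : X ⟶ X') Y = 0 := by
  apply HomologicalComplex.hom_ext
  intro i
  rw [cxMap_f]
  simp
  rfl

/-- The short complex of complexes. -/
def cxSC (S : ShortComplex (ModuleCat.{u} R)) (Y : ModuleCat.{u} R) :
    ShortComplex (ChainComplex (ModuleCat.{u} R) ℕ) where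
  X₁ := cx S.X₁ Y
  X₂ := cx S.X₂ Y
  X₃ := cx S.X₃ Y
  f := cxMap S.f Y
  g := cxMap S.g Y
  zero := by rw [← cxMap_comp, S.zero, cxMap_zero]

instance flat_of_proj (P : ModuleCat.{u} R) [Projective P] : Module.Flat R P := by
  have : Module.Projective R P := (IsProjective.iff_projective P).2 inferInstance
  infer_instance

theorem cxSC_shortExact (S : ShortComplex (ModuleCat.{u} R)) (hS : S.ShortExact)
    (Y : ModuleCat.{u} R) : (cxSC S Y).ShortExact := by
  apply HomologicalComplex.shortExact_of_degreewise_shortExact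
  intro i
  have : ((cxSC S Y).map (HomologicalComplex.eval _ _ i)) =
    S.map (tensorRight ((projectiveResolution Y).complex.X i)) := rfl
  rw [this]
  exact hS.map_of_exact _

/-- The length of `Tor_n (X, Y)`. -/
def tlen (n : ℕ) (X Y : ModuleCat.{u} R) : ℕ∞ :=
  Module.length R (((Tor (ModuleCat.{u} R) n).obj X).obj Y)

theorem tlen_eq (n : ℕ) (X Y : ModuleCat.{u} R) :
    tlen n X Y = Module.length R ((cx X Y).homology n) :=
  (torIso X Y n).toLinearEquiv.length_eq

theorem tlen_congr (n : ℕ) {X X' : ModuleCat.{u} R} (e : X ≅ X') (Y : ModuleCat.{u} R) :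
    tlen n X Y = tlen n X' Y :=
  ((((Tor (ModuleCat.{u} R) n).mapIso e).app Y).toLinearEquiv).length_eq

theorem subsingleton_of_tlen {n : ℕ} {X Y : ModuleCat.{u} R} (h : tlen n X Y = 0) :
    Subsingleton ((cx X Y).homology n) := by
  rw [tlen_eq] at h
  exact Module.length_eq_zero_iff.1 h

theorem exact₂ (S : ShortComplex (ModuleCat.{u} R)) (hS : S.ShortExact)
    (Y : ModuleCat.{u} R) (n : ℕ) :
    Function.Exact (HomologicalComplex.homologyMap (cxMap S.f Y) n)
      (HomologicalComplex.homologyMap (cxMap S.g Y) n) :=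
  (ShortComplex.ShortExact.moduleCat_exact_iff_function_exact _).1
    ((cxSC_shortExact S hS Y).homology_exact₂ n)

theorem exact₁ (S : ShortComplex (ModuleCat.{u} R)) (hS : S.ShortExact)
    (Y : ModuleCat.{u} R) (n : ℕ) :
    Function.Exact ((cxSC_shortExact S hS Y).δ (n + 1) n rfl)
      (HomologicalComplex.homologyMap (cxMap S.f Y) n) :=
  (ShortComplex.ShortExact.moduleCat_exact_iff_function_exact _).1
    ((cxSC_shortExact S hS Y).homology_exact₁ (n + 1) n rfl)

theorem exact₃ (S : ShortComplex (ModuleCat.{u} R)) (hS : S.ShortExact)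
    (Y : ModuleCat.{u} R) (n : ℕ) :
    Function.Exact (HomologicalComplex.homologyMap (cxMap S.g Y) (n + 1))
      ((cxSC_shortExact S hS Y).δ (n + 1) n rfl) :=
  (ShortComplex.ShortExact.moduleCat_exact_iff_function_exact _).1
    ((cxSC_shortExact S hS Y).homology_exact₃ (n + 1) n rfl)

/-- Middle term vanishes if the outer terms do. -/
theorem tlen_mid (S : ShortComplex (ModuleCat.{u} R)) (hS : S.ShortExact)
    (Y : ModuleCat.{u} R) (n : ℕ) (h1 : tlen n S.X₁ Y = 0) (h3 : tlen n S.X₃ Y = 0) :
    tlen n S.X₂ Y = 0 := by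
  rw [tlen_eq, Module.length_eq_zero_iff]
  have h1' := subsingleton_of_tlen h1
  have h3' := subsingleton_of_tlen h3
  have hex := exact₂ S hS Y n
  refine subsingleton_of_forall_eq 0 fun y => ?_
  obtain ⟨x, hx⟩ := (hex y).1 (Subsingleton.elim _ _)
  rw [← hx, Subsingleton.elim x 0, map_zero]

/-- Right term vanishes. -/
theorem tlen_right (S : ShortComplex (ModuleCat.{u} R)) (hS : S.ShortExact)
    (Y : ModuleCat.{u} R) (n : ℕ) (h1 : tlen n S.X₁ Y = 0) (h2 : tlen (n + 1) S.X₂ Y = 0) :
    tlen (n + 1) S.X₃ Y = 0 := by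
  rw [tlen_eq, Module.length_eq_zero_iff]
  have h1' := subsingleton_of_tlen h1
  have h2' := subsingleton_of_tlen h2
  have hex := exact₃ S hS Y n
  refine subsingleton_of_forall_eq 0 fun y => ?_
  have : Subsingleton ((cxSC S Y).X₁.homology n) := h1'
  obtain ⟨x, hx⟩ := (hex y).1 (Subsingleton.elim _ _)
  rw [← hx, Subsingleton.elim x 0, map_zero]

/-- Dimension shifting. -/
theorem tlen_shift (S : ShortComplex (ModuleCat.{u} R)) (hS : S.ShortExact)
    (Y : ModuleCat.{u} R) (n : ℕ) (h : tlen n S.X₂ Y = 0) (h' : tlen (n + 1) S.X₂ Y = 0) :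
    tlen (n + 1) S.X₃ Y = tlen n S.X₁ Y := by
  rw [tlen_eq, tlen_eq]
  have h1 : Subsingleton ((cxSC S Y).X₂.homology n) := subsingleton_of_tlen h
  have h2 : Subsingleton ((cxSC S Y).X₂.homology (n + 1)) := subsingleton_of_tlen h'
  have e := (cxSC_shortExact S hS Y).δIso (n + 1) n rfl
    (ModuleCat.isZero_of_subsingleton _) (ModuleCat.isZero_of_subsingleton _)
  exact e.toLinearEquiv.length_eq

theorem tlen_flat (F Y : ModuleCat.{u} R) [Module.Flat R F] (n : ℕ) :
    tlen (n + 1) F Y = 0 := by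
  rw [tlen_eq, Module.length_eq_zero_iff]
  have h1 : (projectiveResolution Y).complex.ExactAt (n + 1) :=
    (projectiveResolution Y).complex_exactAt_succ n
  have h2 : (cx F Y).ExactAt (n + 1) := by
    rw [HomologicalComplex.exactAt_iff] at h1 ⊢
    have h3 := Module.Flat.lTensor_shortComplex_exact F _ h1
    exact h3
  rw [HomologicalComplex.exactAt_iff_isZero_homology] at h2
  exact ModuleCat.subsingleton_of_isZero h2

theorem homologyMap_smul (r : R) (X Y : ModuleCat.{u} R) (hr : ∀ y : Y, r • y = 0) (n : ℕ) :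
    HomologicalComplex.homologyMap (cxMap (r • 𝟙 X) Y) n = 0 := by
  let P := projectiveResolution Y
  have hcomm : (r • 𝟙 P.complex) ≫ P.π = 0 := by
    apply HomologicalComplex.to_single_hom_ext
    have h0 : (r • P.π.f 0 : P.complex.X 0 ⟶ Y) = 0 := by
      apply ModuleCat.hom_ext
      apply LinearMap.ext
      intro x
      exact hr _
    simpa using! h0
  have hh : Homotopy (r • 𝟙 P.complex) 0 := ProjectiveResolution.liftHomotopyZero _ hcomm
  have hh2 := ((tensoringLeft (ModuleCat.{u} R)).obj X).mapHomotopy hh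
  have e1 : cxMap (r • 𝟙 X) Y =
      (((tensoringLeft (ModuleCat.{u} R)).obj X).mapHomologicalComplex _).map
        (r • 𝟙 P.complex) := by
    apply HomologicalComplex.hom_ext
    intro i
    rw [cxMap_f]
    change (r • 𝟙 X) ▷ P.complex.X i = X ◁ (r • 𝟙 (P.complex.X i))
    rw [MonoidalLinear.smul_whiskerRight, MonoidalLinear.whiskerLeft_smul]
    simp
  have h5 := hh2.homologyMap_eq n
  have h6 : (((tensoringLeft (ModuleCat.{u} R)).obj X).mapHomologicalComplex
    (ComplexShape.down ℕ)).map (0 : P.complex ⟶ P.complex) = 0 := Functor.map_zero _ _ _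
  rw [h6, HomologicalComplex.homologyMap_zero] at h5
  exact (congrArg (fun φ => HomologicalComplex.homologyMap φ n) e1).trans h5

/-- Length of Tor modulo a regular element. -/
theorem tlen_regular {M N : Type u} [AddCommGroup M] [Module R M] [AddCommGroup N] [Module R N]
    (Y : ModuleCat.{u} R) (r : R) (hr : ∀ y : Y, r • y = 0)
    (hreg : ∀ m : M, r • m = 0 → m = 0) (g : M →ₗ[R] N) (hg : Function.Surjective g)
    (hker : ∀ m : M, g m = 0 ↔ ∃ m', r • m' = m) (n : ℕ) :
    tlen (n + 1) (ModuleCat.of R N) Y =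
      tlen (n + 1) (ModuleCat.of R M) Y + tlen n (ModuleCat.of R M) Y := by
  let f : ModuleCat.of R M ⟶ ModuleCat.of R M := r • 𝟙 _
  have hfapp : ∀ m : M, f m = r • m := fun m => rfl
  let S : ShortComplex (ModuleCat.{u} R) :=
    { X₁ := ModuleCat.of R M
      X₂ := ModuleCat.of R M
      X₃ := ModuleCat.of R N
      f := f
      g := ModuleCat.ofHom g
      zero := by
        apply ModuleCat.hom_ext
        apply LinearMap.ext
        intro m
        change g (r • m) = 0
        rw [hker]
        exact ⟨m, rfl⟩ }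
  have hS : S.ShortExact := by
    refine ShortComplex.ShortExact.mk' ?_ ?_ ?_
    · rw [ShortComplex.ShortExact.moduleCat_exact_iff_function_exact]
      intro m
      exact hker m
    · rw [ModuleCat.mono_iff_injective]
      change Function.Injective (fun m : M => r • m)
      intro a b hab
      have : r • (a - b) = 0 := by
        rw [smul_sub]
        exact sub_eq_zero.2 hab
      exact sub_eq_zero.1 (hreg _ this)
    · rw [ModuleCat.epi_iff_surjective]
      exact hg
  rw [tlen_eq, tlen_eq, tlen_eq]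
  have hz : ∀ i, HomologicalComplex.homologyMap (cxMap S.f Y) i = 0 := fun i =>
    homologyMap_smul r (ModuleCat.of R M) Y hr i
  have e1 := exact₁ S hS Y n
  have e2 := exact₂ S hS Y (n + 1)
  have e3 := exact₃ S hS Y n
  refine Module.length_eq_add_of_exact
    (HomologicalComplex.homologyMap (cxMap S.g Y) (n + 1)).hom
    ((cxSC_shortExact S hS Y).δ (n + 1) n rfl).hom ?_ ?_ e3
  · rw [injective_iff_map_eq_zero]
    intro a ha
    obtain ⟨b, hb⟩ := (e2 a).1 ha
    rw [hz (n + 1)] at hb
    exact hb.symm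
  · intro a
    have : HomologicalComplex.homologyMap (cxMap S.f Y) n a = 0 := by
      rw [hz n]; rfl
    exact (e1 a).1 this

/-- Comparison of degree zero opcycles with the tensor product. -/
def op0 (X Y : ModuleCat.{u} R) : (cx X Y).opcycles 0 ⟶ X ⊗ Y :=
  (projectiveResolution Y).fromLeftDerivedZero' ((tensoringLeft (ModuleCat.{u} R)).obj X)

/-- The augmentation of the projective resolution in degree zero. -/
def aug (Y : ModuleCat.{u} R) : (projectiveResolution Y).complex.X 0 ⟶ Y :=
  (projectiveResolution Y).π.f 0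

theorem p_op0 (X Y : ModuleCat.{u} R) :
    (cx X Y).pOpcycles 0 ≫ op0 X Y = X ◁ aug Y :=
  ProjectiveResolution.pOpcycles_comp_fromLeftDerivedZero' (projectiveResolution Y)
    ((tensoringLeft (ModuleCat.{u} R)).obj X)

instance op0_isIso (X Y : ModuleCat.{u} R) : IsIso (op0 X Y) := by
  have h : PreservesFiniteColimits ((tensoringLeft (ModuleCat.{u} R)).obj X) := by
    change PreservesFiniteColimits (tensorLeft X)
    infer_instance
  exact instIsIsoFromLeftDerivedZero' ((tensoringLeft (ModuleCat.{u} R)).obj X)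
    (projectiveResolution Y)

/-- Comparison of degree zero homology with the tensor product. -/
def t0 (X Y : ModuleCat.{u} R) : (cx X Y).homology 0 ⟶ X ⊗ Y :=
  (ChainComplex.isoHomologyι₀ (cx X Y)).hom ≫ op0 X Y

instance t0_isIso (X Y : ModuleCat.{u} R) : IsIso (t0 X Y) :=
  IsIso.comp_isIso

theorem op0_naturality {X X' : ModuleCat.{u} R} (f : X ⟶ X') (Y : ModuleCat.{u} R) :
    HomologicalComplex.opcyclesMap (cxMap f Y) 0 ≫ op0 X' Y = op0 X Y ≫ f ▷ Y := by
  rw [← cancel_epi ((cx X Y).pOpcycles 0)]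
  rw [HomologicalComplex.p_opcyclesMap_assoc, p_op0, ← Category.assoc, p_op0, cxMap_f]
  exact (whisker_exchange f (aug Y)).symm

theorem t0_naturality {X X' : ModuleCat.{u} R} (f : X ⟶ X') (Y : ModuleCat.{u} R) :
    HomologicalComplex.homologyMap (cxMap f Y) 0 ≫ t0 X' Y = t0 X Y ≫ f ▷ Y := by
  have h1 : HomologicalComplex.homologyMap (cxMap f Y) 0 ≫
      (ChainComplex.isoHomologyι₀ (cx X' Y)).hom =
      (ChainComplex.isoHomologyι₀ (cx X Y)).hom ≫
        HomologicalComplex.opcyclesMap (cxMap f Y) 0 := by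
    simp
  rw [t0, t0, ← Category.assoc, h1, Category.assoc, op0_naturality, Category.assoc]

/-- First Tor of the cokernel of an injection into a flat module. -/
theorem tlen_one (S : ShortComplex (ModuleCat.{u} R)) (hS : S.ShortExact)
    (Y : ModuleCat.{u} R) (h : tlen 1 S.X₂ Y = 0) :
    tlen 1 S.X₃ Y = Module.length R (LinearMap.ker (LinearMap.rTensor Y S.f.hom)) := by
  rw [tlen_eq]
  have h2 : Subsingleton ((cx S.X₂ Y).homology 1) := subsingleton_of_tlen h
  have e1 := exact₁ S hS Y 0
  have e3 := exact₃ S hS Y 0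
  let δ : (cx S.X₃ Y).homology 1 →ₗ[R] (cx S.X₁ Y).homology 0 :=
    ((cxSC_shortExact S hS Y).δ 1 0 rfl).hom
  have hδ : Function.Injective δ := by
    rw [injective_iff_map_eq_zero]
    intro a ha
    obtain ⟨b, hb⟩ := (e3 a).1 ha
    have hb0 : b = 0 := Subsingleton.elim (α := (cx S.X₂ Y).homology 1) b 0
    rw [← hb, hb0, map_zero]
  let T1 : (cx S.X₁ Y).homology 0 ≃ₗ[R] (S.X₁ ⊗ Y : ModuleCat.{u} R) :=
    (asIso (t0 S.X₁ Y)).toLinearEquiv
  let g : (cx S.X₃ Y).homology 1 →ₗ[R] (S.X₁ ⊗ Y : ModuleCat.{u} R) := T1.toLinearMap ∘ₗ δ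
  have hg : Function.Injective g := T1.injective.comp hδ
  have hrange : LinearMap.range g = LinearMap.ker (S.f ▷ Y).hom := by
    ext x
    constructor
    · rintro ⟨a, rfl⟩
      have h5 : HomologicalComplex.homologyMap (cxMap S.f Y) 0 (δ a) = 0 := (e1 (δ a)).2 ⟨a, rfl⟩
      have h6 := congrArg (fun φ => φ.hom (δ a)) (t0_naturality S.f Y)
      have h7 : (t0 S.X₂ Y).hom ((HomologicalComplex.homologyMap (cxMap S.f Y) 0).hom (δ a)) =
        (S.f ▷ Y).hom ((t0 S.X₁ Y).hom (δ a)) := h6
      rw [LinearMap.mem_ker]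
      have h8 : g a = (t0 S.X₁ Y).hom (δ a) := rfl
      rw [h8, ← h7]
      have h9 : (HomologicalComplex.homologyMap (cxMap S.f Y) 0).hom (δ a) = 0 := h5
      rw [h9, map_zero]
    · intro hx
      obtain ⟨y, rfl⟩ := T1.surjective x
      have h7 : (t0 S.X₂ Y).hom ((HomologicalComplex.homologyMap (cxMap S.f Y) 0).hom y) =
        (S.f ▷ Y).hom ((t0 S.X₁ Y).hom y) :=
        congrArg (fun φ => φ.hom y) (t0_naturality S.f Y)
      have h8 : (S.f ▷ Y).hom ((t0 S.X₁ Y).hom y) = 0 := hx
      rw [h8] at h7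
      have h9 : (HomologicalComplex.homologyMap (cxMap S.f Y) 0).hom y = 0 := by
        let T2 : (cx S.X₂ Y).homology 0 ≃ₗ[R] (S.X₂ ⊗ Y : ModuleCat.{u} R) :=
          (asIso (t0 S.X₂ Y)).toLinearEquiv
        apply T2.injective
        rw [map_zero]
        exact h7
      obtain ⟨a, ha⟩ := (e1 y).1 h9
      refine ⟨a, ?_⟩
      exact congrArg T1 ha
  have h10 : (S.f ▷ Y).hom = LinearMap.rTensor Y S.f.hom := by
    rfl
  calc Module.length R ((cx S.X₃ Y).homology 1)
      = Module.length R (LinearMap.range g) := (LinearEquiv.ofInjective g hg).length_eq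
    _ = Module.length R (LinearMap.ker (S.f ▷ Y).hom) := by rw [hrange]
    _ = _ := by rw [h10]; rfl

theorem tlen_zero (X Y : ModuleCat.{u} R) :
    tlen 0 X Y = Module.length R (TensorProduct R X Y) := by
  rw [tlen_eq]
  exact ((asIso (t0 X Y)).toLinearEquiv).length_eq

section modules

variable {M N P : Type u} [AddCommGroup M] [AddCommGroup N] [AddCommGroup P]
  [Module R M] [Module R N] [Module R P]

/-- Length of `Tor_n (M, Y)` for a module `M`. -/
def T (Y : ModuleCat.{u} R) (n : ℕ) (M : Type u) [AddCommGroup M] [Module R M] : ℕ∞ :=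
  tlen n (ModuleCat.of R M) Y

/-- Short complex of modules. -/
def sc (f : M →ₗ[R] N) (g : N →ₗ[R] P) (h : Function.Exact f g) :
    ShortComplex (ModuleCat.{u} R) where
  X₁ := ModuleCat.of R M
  X₂ := ModuleCat.of R N
  X₃ := ModuleCat.of R P
  f := ModuleCat.ofHom f
  g := ModuleCat.ofHom g
  zero := by
    apply ModuleCat.hom_ext
    apply LinearMap.ext
    intro m
    exact h.apply_apply_eq_zero m

theorem sc_shortExact (f : M →ₗ[R] N) (g : N →ₗ[R] P) (h : Function.Exact f g)
    (hf : Function.Injective f) (hg : Function.Surjective g) : (sc f g h).ShortExact := by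
  refine ShortComplex.ShortExact.mk' ?_ ?_ ?_
  · rw [ShortComplex.ShortExact.moduleCat_exact_iff_function_exact]
    exact h
  · rw [ModuleCat.mono_iff_injective]
    exact hf
  · rw [ModuleCat.epi_iff_surjective]
    exact hg

variable (Y : ModuleCat.{u} R)

theorem T_congr (n : ℕ) (e : M ≃ₗ[R] N) : T Y n M = T Y n N :=
  tlen_congr n e.toModuleIso Y

theorem T_flat (n : ℕ) [Module.Flat R M] : T Y (n + 1) M = 0 :=
  tlen_flat (ModuleCat.of R M) Y n

theorem T_mid (f : M →ₗ[R] N) (g : N →ₗ[R] P) (h : Function.Exact f g)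
    (hf : Function.Injective f) (hg : Function.Surjective g) (n : ℕ)
    (h1 : T Y n M = 0) (h3 : T Y n P = 0) : T Y n N = 0 :=
  tlen_mid _ (sc_shortExact f g h hf hg) Y n h1 h3

theorem T_right (f : M →ₗ[R] N) (g : N →ₗ[R] P) (h : Function.Exact f g)
    (hf : Function.Injective f) (hg : Function.Surjective g) (n : ℕ)
    (h1 : T Y n M = 0) (h2 : T Y (n + 1) N = 0) : T Y (n + 1) P = 0 :=
  tlen_right _ (sc_shortExact f g h hf hg) Y n h1 h2

theorem T_shift (f : M →ₗ[R] N) (g : N →ₗ[R] P) (h : Function.Exact f g)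
    (hf : Function.Injective f) (hg : Function.Surjective g) (n : ℕ)
    (h1 : T Y n N = 0) (h2 : T Y (n + 1) N = 0) : T Y (n + 1) P = T Y n M :=
  tlen_shift _ (sc_shortExact f g h hf hg) Y n h1 h2

theorem T_one (f : M →ₗ[R] N) (g : N →ₗ[R] P) (h : Function.Exact f g)
    (hf : Function.Injective f) (hg : Function.Surjective g)
    (h2 : T Y 1 N = 0) :
    T Y 1 P = Module.length R (LinearMap.ker (LinearMap.rTensor Y f)) :=
  tlen_one _ (sc_shortExact f g h hf hg) Y h2

theorem T_zero : T Y 0 M = Module.length R (TensorProduct R M Y) :=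
  tlen_zero _ _

theorem T_regular (r : R) (hr : ∀ y : Y, r • y = 0)
    (hreg : ∀ m : M, r • m = 0 → m = 0) (g : M →ₗ[R] N) (hg : Function.Surjective g)
    (hker : ∀ m : M, g m = 0 ↔ ∃ m', r • m' = m) (n : ℕ) :
    T Y (n + 1) N = T Y (n + 1) M + T Y n M :=
  tlen_regular Y r hr hreg g hg hker n

theorem T_four (f : M →ₗ[R] N) (g : N →ₗ[R] P) (h : Function.Exact f g)
    (hf : Function.Injective f) (hg : Function.Surjective g)
    (h2 : T Y 1 N = 0) : T Y 0 M + T Y 0 P = T Y 1 P + T Y 0 N := by
  rw [T_one Y f g h hf hg h2, T_zero, T_zero, T_zero]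
  have h3 := rTensor_exact Y h hg
  have h4 : Function.Surjective (LinearMap.rTensor Y g) := LinearMap.rTensor_surjective Y hg
  have h5 : Module.length R (TensorProduct R M Y) =
      Module.length R (LinearMap.ker (LinearMap.rTensor Y f)) +
        Module.length R (LinearMap.range (LinearMap.rTensor Y f)) := by
    refine Module.length_eq_add_of_exact (LinearMap.ker (LinearMap.rTensor Y f)).subtype
      (LinearMap.rTensor Y f).rangeRestrict (Submodule.subtype_injective _)
      (LinearMap.surjective_rangeRestrict _) ?_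
    rw [LinearMap.exact_iff, LinearMap.ker_rangeRestrict, Submodule.range_subtype]
  have h6 : Module.length R (TensorProduct R N Y) =
      Module.length R (LinearMap.range (LinearMap.rTensor Y f)) +
        Module.length R (TensorProduct R P Y) := by
    refine Module.length_eq_add_of_exact (LinearMap.range (LinearMap.rTensor Y f)).subtype
      (LinearMap.rTensor Y g) (Submodule.subtype_injective _) h4 ?_
    rw [LinearMap.exact_iff, Submodule.range_subtype]
    exact (LinearMap.exact_iff.1 h3)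
  rw [h5, h6, add_assoc]

end modules

end

end les

end Pool.Agent.MP_76aa63_al
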