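import Mathlib
import Pool.Agent.MP_76aa63_al.Label
import Pool.Agent.MP_76aa63_al.TorLES

set_option autoImplicit false

namespace Pool.Agent.MP_76aa63_al

open Finset MvPolynomial

section mods

variable {V : Type} [LinearOrder V] [Fintype V] {σ : Type} {k : Type} [Field k]
  (a : V → (σ →₀ ℕ))

/-- The labelled differential as a linear map. -/
noncomputable def dLin : (Finset V → MvPolynomial σ k) →ₗ[MvPolynomial σ k]
    (Finset V → MvPolynomial σ k) where
  toFun := dd a
  map_add' c c' := by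
    funext τ
    simp only [dd, Pi.add_apply, mul_add, smul_add, Finset.sum_add_distrib]
  map_smul' r c := by
    funext τ
    simp only [dd, Pi.smul_apply, smul_eq_mul, RingHom.id_apply, Finset.mul_sum]
    apply Finset.sum_congr rfl
    intro v _
    rw [mul_smul_comm, mul_left_comm]

theorem dLin_apply (c : Finset V → MvPolynomial σ k) : dLin a c = dd a c := rfl

variable (V σ k) in
/-- Chains of degree `j`. -/
def Cm (j : ℕ) : Submodule (MvPolynomial σ k) (Finset V → MvPolynomial σ k) where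
  carrier := {c | ∀ τ, τ.card ≠ j → c τ = 0}
  add_mem' := by
    intro c c' h h' τ hτ
    rw [Pi.add_apply, h τ hτ, h' τ hτ, add_zero]
  zero_mem' := fun τ _ => rfl
  smul_mem' := by
    intro r c h τ hτ
    rw [Pi.smul_apply, h τ hτ, smul_zero]

theorem mem_Cm {j : ℕ} {c : Finset V → MvPolynomial σ k} :
    c ∈ Cm V σ k j ↔ ∀ τ, τ.card ≠ j → c τ = 0 := Iff.rfl

/-- Cycles of degree `j`. -/
noncomputable def Zm (j : ℕ) : Submodule (MvPolynomial σ k) (Finset V → MvPolynomial σ k) :=
  Cm V σ k j ⊓ LinearMap.ker (dLin a)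

theorem mem_Zm {j : ℕ} {c : Finset V → MvPolynomial σ k} :
    c ∈ Zm a j ↔ (∀ τ, τ.card ≠ j → c τ = 0) ∧ dd a c = 0 := Iff.rfl

theorem dd_mem_Cm {j : ℕ} {c : Finset V → MvPolynomial σ k} (hc : c ∈ Cm V σ k (j + 1)) :
    dd a c ∈ Cm V σ k j := by
  intro τ hτ
  unfold dd
  apply Finset.sum_eq_zero
  intro v hv
  rw [Finset.mem_compl] at hv
  rw [hc (insert v τ) (by rw [Finset.card_insert_of_notMem hv]; omega)]
  simp

instance flat_Cm (j : ℕ) : Module.Flat (MvPolynomial σ k) (Cm V σ k j) := by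
  classical
  let r : (Finset V → MvPolynomial σ k) →ₗ[MvPolynomial σ k] Cm V σ k j :=
    { toFun := fun c => ⟨fun τ => if τ.card = j then c τ else 0, by
        intro τ hτ
        exact if_neg hτ⟩
      map_add' := by
        intro c c'
        apply Subtype.ext
        funext τ
        simp only [Submodule.coe_add, Pi.add_apply]
        split_ifs <;> simp
      map_smul' := by
        intro s c
        apply Subtype.ext
        funext τ
        simp only [Submodule.coe_smul, Pi.smul_apply, RingHom.id_apply]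
        split_ifs <;> simp }
  refine Module.Flat.of_retract (Cm V σ k j).subtype r ?_
  apply LinearMap.ext
  intro c
  apply Subtype.ext
  funext τ
  change (if τ.card = j then c.1 τ else 0) = c.1 τ
  split_ifs with h
  · rfl
  · exact (c.2 τ h).symm

/-- Restricted differential. -/
noncomputable def dRes (j : ℕ) : Cm V σ k (j + 1) →ₗ[MvPolynomial σ k] Zm (k := k) a j :=
  ((dLin a).domRestrict (Cm V σ k (j + 1))).codRestrict _ (fun c => by
    rw [LinearMap.domRestrict_apply, dLin_apply, mem_Zm]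
    exact ⟨dd_mem_Cm a c.2, dd_dd a _⟩)

theorem dRes_coe (j : ℕ) (c : Cm V σ k (j + 1)) : (dRes a j c : Finset V → MvPolynomial σ k) =
    dd a c.1 := rfl

theorem dRes_surjective (j : ℕ) (hj : 1 ≤ j) : Function.Surjective (dRes (k := k) a j) := by
  rintro ⟨z, hz⟩
  rw [mem_Zm] at hz
  obtain ⟨c', h1, h2, _⟩ := taylor_exact a j hj z hz.1 hz.2
  exact ⟨⟨c', h1⟩, Subtype.ext h2⟩

/-- Inclusion of cycles in chains. -/
noncomputable def zInc (j : ℕ) : Zm (k := k) a j →ₗ[MvPolynomial σ k] Cm V σ k j :=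
  Submodule.inclusion inf_le_left

theorem zInc_injective (j : ℕ) : Function.Injective (zInc (k := k) a j) :=
  Submodule.inclusion_injective _

theorem exact_zInc_dRes (j : ℕ) : Function.Exact (zInc (k := k) a (j + 1)) (dRes a j) := by
  intro c
  constructor
  · intro h
    refine ⟨⟨c.1, ?_⟩, rfl⟩
    rw [mem_Zm]
    refine ⟨c.2, ?_⟩
    exact congrArg Subtype.val h
  · rintro ⟨z, rfl⟩
    apply Subtype.ext
    exact (mem_Zm a).1 z.2 |>.2

/-- The ideal generated by the monomials. -/
noncomputable def Am : Ideal (MvPolynomial σ k) :=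
  Ideal.span (Set.range fun v => monomial (a v) 1)

theorem dd_empty (c : Finset V → MvPolynomial σ k) :
    dd a c ∅ = ∑ v, monomial (a v) 1 * c {v} := by
  unfold dd
  rw [Finset.compl_empty]
  apply Finset.sum_congr rfl
  intro v _
  have h1 : sgn v (∅ : Finset V) = 1 := by simp [sgn]
  have h2 : lab a (∅ : Finset V) = 0 := Finset.sup_empty
  have h3 : insert v (∅ : Finset V) = {v} := rfl
  have h4 : lab a ({v} : Finset V) = a v := Finset.sup_singleton
  rw [h1, one_smul, h3, h2, h4, tsub_zero]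

/-- The augmentation onto the ideal. -/
noncomputable def augA : Cm V σ k 1 →ₗ[MvPolynomial σ k] Am (k := k) a :=
  (((LinearMap.proj (∅ : Finset V)).comp (dLin a)).domRestrict (Cm V σ k 1)).codRestrict _
    (fun c => by
      rw [LinearMap.domRestrict_apply, LinearMap.comp_apply, dLin_apply, LinearMap.proj_apply,
        dd_empty]
      apply Ideal.sum_mem
      intro v _
      exact Ideal.mul_mem_right _ _ (Ideal.subset_span ⟨v, rfl⟩))

theorem augA_coe (c : Cm V σ k 1) : (augA a c : MvPolynomial σ k) = dd a c.1 ∅ := rfl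

theorem augA_surjective : Function.Surjective (augA (k := k) a) := by
  classical
  rintro ⟨f, hf⟩
  unfold Am at hf
  rw [Ideal.mem_span_range_iff_exists_fun] at hf
  obtain ⟨c, hc⟩ := hf
  refine ⟨⟨fun τ => ∑ v, if τ = {v} then c v else 0, ?_⟩, ?_⟩
  · intro τ hτ
    apply Finset.sum_eq_zero
    intro v _
    rw [if_neg]
    rintro rfl
    exact hτ (Finset.card_singleton v)
  · apply Subtype.ext
    rw [augA_coe, dd_empty]
    change _ = f
    rw [← hc]
    apply Finset.sum_congr rfl
    intro v _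
    rw [mul_comm]
    congr 1
    change (∑ w, if ({v} : Finset V) = {w} then c w else 0) = c v
    rw [Finset.sum_eq_single v]
    · rw [if_pos rfl]
    · intro w _ hw
      rw [if_neg]
      intro h
      exact hw (Finset.singleton_injective h).symm
    · intro h
      exact absurd (Finset.mem_univ v) h

theorem exact_zInc_augA : Function.Exact (zInc (k := k) a 1) (augA a) := by
  intro c
  constructor
  · intro h
    refine ⟨⟨c.1, ?_⟩, rfl⟩
    rw [mem_Zm]
    refine ⟨c.2, ?_⟩
    funext τ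
    by_cases hτ : τ = ∅
    · subst hτ
      exact congrArg Subtype.val h
    · have h2 : dd a c.1 ∈ Cm V σ k 0 := dd_mem_Cm a c.2
      exact h2 τ (by rwa [Ne, Finset.card_eq_zero])
  · rintro ⟨z, rfl⟩
    apply Subtype.ext
    exact congrFun ((mem_Zm a).1 z.2).2 ∅

section top

variable (v₁ : V) (j : ℕ)

/-- Index set of the top free module. -/
abbrev Top (v₁ : V) (j : ℕ) : Type := {τ : Finset V // τ.card = j + 1 ∧ v₁ ∈ τ}

/-- Extension by zero. -/
noncomputable def ext (y : Top v₁ j → MvPolynomial σ k) : Finset V → MvPolynomial σ k := fun τ =>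
  if h : τ.card = j + 1 ∧ v₁ ∈ τ then y ⟨τ, h⟩ else 0

theorem ext_mem (y : Top v₁ j → MvPolynomial σ k) : ext v₁ j y ∈ Cm V σ k (j + 1) := by
  intro τ hτ
  rw [ext, dif_neg]
  intro h
  exact hτ h.1

/-- The top differential. -/
noncomputable def Phi : (Top v₁ j → MvPolynomial σ k) →ₗ[MvPolynomial σ k] Cm V σ k j where
  toFun y := ⟨dd a (ext v₁ j y), dd_mem_Cm a (ext_mem v₁ j y)⟩
  map_add' y z := by
    apply Subtype.ext
    have : ext v₁ j (y + z) = ext v₁ j y + ext v₁ j z := by
      funext τ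
      simp only [ext, Pi.add_apply]
      split_ifs <;> simp
    change dLin a _ = dLin a _ + dLin a _
    rw [this, map_add]
  map_smul' r y := by
    apply Subtype.ext
    have : ext v₁ j (r • y) = r • ext v₁ j y := by
      funext τ
      simp only [ext, Pi.smul_apply]
      split_ifs <;> simp
    change dLin a _ = r • dLin a _
    rw [this, map_smul]

theorem Phi_coe (y : Top v₁ j → MvPolynomial σ k) :
    (Phi a v₁ j y : Finset V → MvPolynomial σ k) = dd a (ext v₁ j y) := rfl

theorem Phi_injective : Function.Injective (Phi (k := k) a v₁ j) := by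
  rw [injective_iff_map_eq_zero]
  intro y hy
  funext ⟨ρ, hρ1, hρ2⟩
  have h1 := congrFun (congrArg Subtype.val hy) (ρ.erase v₁)
  have h0 : v₁ ∉ ρ.erase v₁ := by simp
  rw [Phi_coe] at h1
  unfold dd at h1
  rw [Finset.sum_eq_single v₁] at h1
  · rw [Finset.insert_erase hρ2] at h1
    have h2 : ext v₁ j y ρ = y ⟨ρ, hρ1, hρ2⟩ := dif_pos ⟨hρ1, hρ2⟩
    rw [h2] at h1
    have h3 : (sgn v₁ (ρ.erase v₁) * sgn v₁ (ρ.erase v₁)) •
      (monomial (lab a ρ - lab a (ρ.erase v₁)) (1 : k) * y ⟨ρ, hρ1, hρ2⟩) = 0 := by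
      rw [mul_smul, h1]
      exact smul_zero _
    rw [sgn_mul_self, one_smul] at h3
    rcases mul_eq_zero.1 h3 with h4 | h4
    · simp at h4
    · exact h4
  · intro w _ hw
    have h2 : ext v₁ j y (insert w (ρ.erase v₁)) = 0 := by
      rw [ext, dif_neg]
      rintro ⟨_, h⟩
      rcases Finset.mem_insert.1 h with h | h
      · exact hw h.symm
      · exact h0 h
    rw [h2, mul_zero, smul_zero]
  · intro h
    exact absurd (Finset.mem_compl.2 h0) h

theorem exact_Phi (hv₁ : ∀ v, v₁ ≤ v) (hlab : ∀ τ : Finset V, τ.card = j + 2 → a v₁ ≤ lab a τ) :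
    Function.Exact (Phi (k := k) a v₁ (j + 1)) (dRes a j) := by
  intro c
  constructor
  · intro h
    have h1 : dd a c.1 = 0 := congrArg Subtype.val h
    obtain ⟨c', h2, h3, h4⟩ := taylor_exact a (j + 1) (by omega) c.1 c.2 h1
    refine ⟨fun τ => c' τ.1, ?_⟩
    apply Subtype.ext
    rw [Phi_coe, ← h3]
    congr 1
    funext τ
    rw [ext]
    split_ifs with h5
    · rfl
    · by_cases h6 : τ.card = j + 2
      · refine (h4 v₁ hv₁ τ (hlab τ h6) ?_).symm
        intro h7
        exact h5 ⟨h6, h7⟩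
      · exact (h2 τ h6).symm
  · rintro ⟨y, rfl⟩
    apply Subtype.ext
    exact dd_dd a _

end top

section tor

variable (Y : ModuleCat.{0} (MvPolynomial σ k))

theorem T_quot_succ (n : ℕ) (I : Ideal (MvPolynomial σ k)) :
    T Y (n + 2) (MvPolynomial σ k ⧸ I) = T Y (n + 1) I := by
  refine T_shift Y (Submodule.subtype I) (Submodule.mkQ I) ?_ (Submodule.subtype_injective I)
    (Submodule.mkQ_surjective I) (n + 1) (T_flat Y n) (T_flat Y (n + 1))
  rw [LinearMap.exact_iff, Submodule.ker_mkQ, Submodule.range_subtype]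

theorem T_Am (n : ℕ) : T Y (n + 2) (Am (k := k) a) = T Y (n + 1) (Zm (k := k) a 1) :=
  T_shift Y (zInc a 1) (augA a) (exact_zInc_augA a) (zInc_injective a 1) (augA_surjective a)
    (n + 1) (T_flat Y n) (T_flat Y (n + 1))

theorem T_Zm (n j : ℕ) (hj : 1 ≤ j) :
    T Y (n + 2) (Zm (k := k) a j) = T Y (n + 1) (Zm (k := k) a (j + 1)) :=
  T_shift Y (zInc a (j + 1)) (dRes a j) (exact_zInc_dRes a j) (zInc_injective a (j + 1))
    (dRes_surjective a j hj) (n + 1) (T_flat Y n) (T_flat Y (n + 1))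

theorem T_Zm_top (v₁ : V) (hv₁ : ∀ v, v₁ ≤ v) (j : ℕ) (hj : 1 ≤ j)
    (hlab : ∀ τ : Finset V, τ.card = j + 2 → a v₁ ≤ lab a τ) (n : ℕ) :
    T Y (n + 2) (Zm (k := k) a j) = 0 := by
  rw [T_shift Y (Phi a v₁ (j + 1)) (dRes a j) (exact_Phi a v₁ j hv₁ hlab)
    (Phi_injective a v₁ (j + 1)) (dRes_surjective a j hj) (n + 1) (T_flat Y n)
    (T_flat Y (n + 1))]
  exact T_flat Y n

theorem T_Zm_one (v₁ : V) (hv₁ : ∀ v, v₁ ≤ v) (j : ℕ) (hj : 1 ≤ j)
    (hlab : ∀ τ : Finset V, τ.card = j + 2 → a v₁ ≤ lab a τ) :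
    T Y 1 (Zm (k := k) a j) = Module.length (MvPolynomial σ k)
      (LinearMap.ker (LinearMap.rTensor Y (Phi (k := k) a v₁ (j + 1)))) :=
  T_one Y (Phi a v₁ (j + 1)) (dRes a j) (exact_Phi a v₁ j hv₁ hlab)
    (Phi_injective a v₁ (j + 1)) (dRes_surjective a j hj) (T_flat Y 0)

end tor

end mods

end Pool.Agent.MP_76aa63_al
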