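import Mathlib
import Pool.Agent.MP_76aa63_al.Mods

set_option autoImplicit false

namespace Pool.Agent.MP_76aa63_al

open Finset MvPolynomial TensorProduct

section ker

variable {V : Type} [LinearOrder V] [Fintype V] {σ : Type} {k : Type} [Field k]
  (a : V → (σ →₀ ℕ)) (Y : Type) [AddCommGroup Y] [Module (MvPolynomial σ k) Y]

/-- Tensoring a finite free module. -/
noncomputable def eL (ι : Type) [Fintype ι] [DecidableEq ι] :
    (ι → MvPolynomial σ k) ⊗[MvPolynomial σ k] Y ≃ₗ[MvPolynomial σ k] (ι → Y) :=
  (TensorProduct.comm _ _ _).trans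
    (TensorProduct.piScalarRight (MvPolynomial σ k) (MvPolynomial σ k) Y ι)

theorem eL_tmul (ι : Type) [Fintype ι] [DecidableEq ι] (f : ι → MvPolynomial σ k) (y : Y) :
    eL Y ι (f ⊗ₜ[MvPolynomial σ k] y) = fun i => f i • y := by
  simp [eL]

/-- Retraction onto chains of degree `j`. -/
noncomputable def retr (j : ℕ) :
    (Finset V → MvPolynomial σ k) →ₗ[MvPolynomial σ k] Cm V σ k j where
  toFun := fun c => ⟨fun τ => if τ.card = j then c τ else 0, by
    intro τ hτ
    exact if_neg hτ⟩
  map_add' := by
    intro c c'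
    apply Subtype.ext
    funext τ
    simp only [Submodule.coe_add, Pi.add_apply]
    split_ifs <;> simp
  map_smul' := by
    intro s c
    apply Subtype.ext
    funext τ
    simp only [Submodule.coe_smul, Pi.smul_apply, RingHom.id_apply]
    split_ifs <;> simp

theorem retr_comp (j : ℕ) : (retr (V := V) (σ := σ) (k := k) j).comp (Cm V σ k j).subtype =
    LinearMap.id := by
  apply LinearMap.ext
  intro c
  apply Subtype.ext
  funext τ
  change (if τ.card = j then c.1 τ else 0) = c.1 τ
  split_ifs with h
  · rfl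
  · exact (c.2 τ h).symm

/-- Coordinates of the tensor product of chains. -/
noncomputable def theta (j : ℕ) : (Cm V σ k j) ⊗[MvPolynomial σ k] Y →ₗ[MvPolynomial σ k]
    (Finset V → Y) :=
  (eL Y (Finset V)).toLinearMap ∘ₗ LinearMap.rTensor Y (Cm V σ k j).subtype

theorem theta_tmul (j : ℕ) (c : Cm V σ k j) (y : Y) :
    theta Y j (c ⊗ₜ[MvPolynomial σ k] y) = fun τ => c.1 τ • y := by
  simp [theta, eL_tmul]

theorem theta_injective (j : ℕ) : Function.Injective (theta (V := V) (σ := σ) (k := k) Y j) := by
  have h1 : Function.Injective (LinearMap.rTensor Y (Cm V σ k j).subtype) := by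
    have h2 : (LinearMap.rTensor Y (retr (V := V) (σ := σ) (k := k) j)).comp
        (LinearMap.rTensor Y (Cm V σ k j).subtype) = LinearMap.id := by
      rw [← LinearMap.rTensor_comp, retr_comp, LinearMap.rTensor_id]
    intro x y hxy
    have h3 := congrArg (LinearMap.rTensor Y (retr (V := V) (σ := σ) (k := k) j)) hxy
    rw [← LinearMap.comp_apply, ← LinearMap.comp_apply, h2] at h3
    exact h3
  exact (eL Y (Finset V)).injective.comp h1

/-- Labelled differential with coefficients in a module. -/
noncomputable def ddY : (Finset V → Y) →ₗ[MvPolynomial σ k] (Finset V → Y) where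
  toFun c := fun τ => ∑ v ∈ τᶜ, sgn v τ •
    ((monomial (lab a (insert v τ) - lab a τ) (1 : k)) • c (insert v τ))
  map_add' c c' := by
    funext τ
    simp only [Pi.add_apply, smul_add, Finset.sum_add_distrib]
  map_smul' r c := by
    funext τ
    simp only [Pi.smul_apply, RingHom.id_apply, Finset.smul_sum]
    apply Finset.sum_congr rfl
    intro v _
    rw [smul_comm r (sgn v τ), smul_comm r]

theorem ddY_apply (c : Finset V → Y) (τ : Finset V) :
    ddY (k := k) a Y c τ = ∑ v ∈ τᶜ, sgn v τ •
      ((monomial (lab a (insert v τ) - lab a τ) (1 : k)) • c (insert v τ)) := rfl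

variable (v₁ : V) (j : ℕ)

/-- Extension by zero with coefficients in a module. -/
noncomputable def extY : (Top v₁ j → Y) →ₗ[MvPolynomial σ k] (Finset V → Y) where
  toFun y := fun τ => if h : τ.card = j + 1 ∧ v₁ ∈ τ then y ⟨τ, h⟩ else 0
  map_add' y z := by
    funext τ
    simp only [Pi.add_apply]
    split_ifs <;> simp
  map_smul' r y := by
    funext τ
    simp only [Pi.smul_apply, RingHom.id_apply]
    split_ifs <;> simp

theorem theta_Phi : (theta Y j) ∘ₗ (LinearMap.rTensor Y (Phi (k := k) a v₁ j)) =
    (ddY (k := k) a Y) ∘ₗ (extY Y v₁ j) ∘ₗ (eL Y (Top v₁ j)).toLinearMap := by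
  apply TensorProduct.ext'
  intro f y
  rw [LinearMap.comp_apply, LinearMap.rTensor_tmul, theta_tmul, LinearMap.comp_apply,
    LinearMap.comp_apply, LinearEquiv.coe_coe, eL_tmul]
  funext τ
  rw [Phi_coe, ddY_apply, dd, Finset.sum_smul]
  apply Finset.sum_congr rfl
  intro v _
  rw [smul_assoc, ← smul_smul]
  congr 2
  change ext v₁ j f (insert v τ) • y = (if h : (insert v τ).card = j + 1 ∧ v₁ ∈ insert v τ then
    f ⟨insert v τ, h⟩ • y else 0)
  unfold ext
  split_ifs
  · rfl
  · exact zero_smul _ _

/-- Kernel with coefficients. -/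
noncomputable def KY : Submodule (MvPolynomial σ k) (Top v₁ j → Y) :=
  LinearMap.ker ((ddY (k := k) a Y) ∘ₗ (extY Y v₁ j))

theorem length_ker_rTensor_Phi :
    Module.length (MvPolynomial σ k)
      (LinearMap.ker (LinearMap.rTensor Y (Phi (k := k) a v₁ j))) =
    Module.length (MvPolynomial σ k) (KY (k := k) a Y v₁ j) := by
  have h1 : LinearMap.ker (LinearMap.rTensor Y (Phi (k := k) a v₁ j)) =
      (KY (k := k) a Y v₁ j).comap (eL Y (Top v₁ j)).toLinearMap := by
    ext t
    rw [LinearMap.mem_ker, Submodule.mem_comap, KY, LinearMap.mem_ker]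
    have h2 := congrArg (fun φ => φ t) (theta_Phi (k := k) a Y v₁ j)
    simp only [LinearMap.comp_apply] at h2
    constructor
    · intro h3
      rw [h3, map_zero] at h2
      exact h2.symm
    · intro h3
      apply theta_injective Y j
      rw [map_zero, h2]
      exact h3
  rw [h1]
  exact (LinearEquiv.ofSubmodule' (eL Y (Top v₁ j)) (KY (k := k) a Y v₁ j)).length_eq

end ker

end Pool.Agent.MP_76aa63_al
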