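import Mathlib
import Pool.Agent.MP_76aa63_al.Ker

set_option autoImplicit false

namespace Pool.Agent.MP_76aa63_al

open Finset MvPolynomial TensorProduct

section rp2

/-- The ten triangles of the six-vertex real projective plane. -/
def facet : Fin 10 → Finset (Fin 6) :=
  ![{0, 1, 2}, {0, 2, 3}, {0, 3, 4}, {0, 4, 5}, {0, 1, 5},
    {1, 2, 4}, {2, 3, 5}, {1, 3, 4}, {2, 4, 5}, {1, 3, 5}]

/-- The label function. -/
def labF (τ : Finset (Fin 6)) (i : Fin 12) : ℕ :=
  if h : i.val < 10 then (if τ ⊆ facet ⟨i.val, h⟩ then 0 else 1) else 0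

/-- Exponents of the six monomials. -/
noncomputable def av (v : Fin 6) : Fin 12 →₀ ℕ := Finsupp.equivFunOnFinite.symm (labF {v})

theorem av_apply (v : Fin 6) (i : Fin 12) : av v i = labF {v} i := rfl

theorem labF_insert (v : Fin 6) (τ : Finset (Fin 6)) (i : Fin 12) :
    labF (insert v τ) i = max (labF {v} i) (labF τ i) := by
  unfold labF
  split_ifs with h h1 h2 h3 h4 h5 h6 h7 <;> simp_all [Finset.insert_subset_iff]

theorem lab_av (τ : Finset (Fin 6)) (i : Fin 12) : lab av τ i = labF τ i := by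
  induction τ using Finset.induction_on with
  | empty =>
    have h1 : lab av (∅ : Finset (Fin 6)) = 0 := Finset.sup_empty
    rw [h1]
    simp [labF]
  | insert v τ _ ih =>
    rw [lab_insert, Finsupp.sup_apply, ih, av_apply, labF_insert]

theorem lab_eq_iff (τ τ' : Finset (Fin 6)) : lab av τ = lab av τ' ↔ labF τ = labF τ' := by
  constructor
  · intro h
    funext i
    rw [← lab_av, ← lab_av, h]
  · intro h
    ext i
    rw [lab_av, lab_av, h]

variable {k : Type} [Field k] {Y : Type} [AddCommGroup Y] [Module (MvPolynomial (Fin 12) k) Y]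

theorem monomial_smul_eq_zero (hY : ∀ (i : Fin 12) (y : Y),
    (X i : MvPolynomial (Fin 12) k) • y = 0) (e : Fin 12 →₀ ℕ) (he : e ≠ 0) (y : Y) :
    (monomial e (1 : k)) • y = 0 := by
  obtain ⟨i, hi⟩ : ∃ i, e i ≠ 0 := by
    by_contra h
    push Not at h
    exact he (Finsupp.ext h)
  have h1 : monomial e (1 : k) = monomial (e - Finsupp.single i 1) 1 * X i := by
    rw [X, monomial_mul, one_mul, tsub_add_cancel_of_le]
    rw [Finsupp.single_le_iff]
    omega
  rw [h1, mul_smul, hY, smul_zero]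

theorem ddY_eq (hY : ∀ (i : Fin 12) (y : Y), (X i : MvPolynomial (Fin 12) k) • y = 0)
    (q : Finset (Fin 6) → Y) (τ : Finset (Fin 6)) :
    ddY (k := k) av Y q τ =
      ∑ v ∈ τᶜ, if labF (insert v τ) = labF τ then sgn v τ • q (insert v τ) else 0 := by
  rw [ddY_apply]
  apply Finset.sum_congr rfl
  intro v _
  split_ifs with h
  · have h1 : lab av (insert v τ) = lab av τ := (lab_eq_iff _ _).2 h
    rw [h1, tsub_self]
    have h2 : (monomial (0 : Fin 12 →₀ ℕ) (1 : k)) = 1 := rfl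
    rw [h2, one_smul]
  · have h1 : lab av (insert v τ) - lab av τ ≠ 0 := by
      intro h2
      apply h
      rw [← lab_eq_iff]
      apply le_antisymm
      · rw [← tsub_eq_zero_iff_le]
        exact h2
      · exact lab_mono av (Finset.subset_insert v τ)
    rw [monomial_smul_eq_zero hY _ h1, smul_zero]

theorem eq_013 {Y : Type} [AddCommGroup Y] (q : Finset (Fin 6) → Y) (hq0 : ∀ ρ, 0 ∉ ρ → q ρ = 0)
    (hq : ∀ τ, (∑ v ∈ τᶜ, if labF (insert v τ) = labF τ then sgn v τ • q (insert v τ) else 0) = 0) :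
    (q {0, 1, 2, 3}) + (-q {0, 1, 3, 4}) + (-q {0, 1, 3, 5}) = 0 := by
  have h := hq {0, 1, 3}
  have hc : ({0, 1, 3} : Finset (Fin 6))ᶜ = {2, 4, 5} := by decide
  rw [hc, Finset.sum_insert (by decide), Finset.sum_insert (by decide), Finset.sum_singleton,
    if_pos (by decide), if_pos (by decide), if_pos (by decide)] at h
  have e2 : (insert 2 {0, 1, 3} : Finset (Fin 6)) = {0, 1, 2, 3} := by decide
  have s2 : sgn (2 : Fin 6) {0, 1, 3} = 1 := by decide
  have e4 : (insert 4 {0, 1, 3} : Finset (Fin 6)) = {0, 1, 3, 4} := by decide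
  have s4 : sgn (4 : Fin 6) {0, 1, 3} = -1 := by decide
  have e5 : (insert 5 {0, 1, 3} : Finset (Fin 6)) = {0, 1, 3, 5} := by decide
  have s5 : sgn (5 : Fin 6) {0, 1, 3} = -1 := by decide
  rw [e2, s2, e4, s4, e5, s5] at h
  simpa [add_assoc] using h

theorem eq_014 {Y : Type} [AddCommGroup Y] (q : Finset (Fin 6) → Y) (hq0 : ∀ ρ, 0 ∉ ρ → q ρ = 0)
    (hq : ∀ τ, (∑ v ∈ τᶜ, if labF (insert v τ) = labF τ then sgn v τ • q (insert v τ) else 0) = 0) :
    (q {0, 1, 2, 4}) + (q {0, 1, 3, 4}) + (-q {0, 1, 4, 5}) = 0 := by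
  have h := hq {0, 1, 4}
  have hc : ({0, 1, 4} : Finset (Fin 6))ᶜ = {2, 3, 5} := by decide
  rw [hc, Finset.sum_insert (by decide), Finset.sum_insert (by decide), Finset.sum_singleton,
    if_pos (by decide), if_pos (by decide), if_pos (by decide)] at h
  have e2 : (insert 2 {0, 1, 4} : Finset (Fin 6)) = {0, 1, 2, 4} := by decide
  have s2 : sgn (2 : Fin 6) {0, 1, 4} = 1 := by decide
  have e3 : (insert 3 {0, 1, 4} : Finset (Fin 6)) = {0, 1, 3, 4} := by decide
  have s3 : sgn (3 : Fin 6) {0, 1, 4} = 1 := by decide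
  have e5 : (insert 5 {0, 1, 4} : Finset (Fin 6)) = {0, 1, 4, 5} := by decide
  have s5 : sgn (5 : Fin 6) {0, 1, 4} = -1 := by decide
  rw [e2, s2, e3, s3, e5, s5] at h
  simpa [add_assoc] using h

theorem eq_024 {Y : Type} [AddCommGroup Y] (q : Finset (Fin 6) → Y) (hq0 : ∀ ρ, 0 ∉ ρ → q ρ = 0)
    (hq : ∀ τ, (∑ v ∈ τᶜ, if labF (insert v τ) = labF τ then sgn v τ • q (insert v τ) else 0) = 0) :
    (-q {0, 1, 2, 4}) + (q {0, 2, 3, 4}) + (-q {0, 2, 4, 5}) = 0 := by
  have h := hq {0, 2, 4}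
  have hc : ({0, 2, 4} : Finset (Fin 6))ᶜ = {1, 3, 5} := by decide
  rw [hc, Finset.sum_insert (by decide), Finset.sum_insert (by decide), Finset.sum_singleton,
    if_pos (by decide), if_pos (by decide), if_pos (by decide)] at h
  have e1 : (insert 1 {0, 2, 4} : Finset (Fin 6)) = {0, 1, 2, 4} := by decide
  have s1 : sgn (1 : Fin 6) {0, 2, 4} = -1 := by decide
  have e3 : (insert 3 {0, 2, 4} : Finset (Fin 6)) = {0, 2, 3, 4} := by decide
  have s3 : sgn (3 : Fin 6) {0, 2, 4} = 1 := by decide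
  have e5 : (insert 5 {0, 2, 4} : Finset (Fin 6)) = {0, 2, 4, 5} := by decide
  have s5 : sgn (5 : Fin 6) {0, 2, 4} = -1 := by decide
  rw [e1, s1, e3, s3, e5, s5] at h
  simpa [add_assoc] using h

theorem eq_025 {Y : Type} [AddCommGroup Y] (q : Finset (Fin 6) → Y) (hq0 : ∀ ρ, 0 ∉ ρ → q ρ = 0)
    (hq : ∀ τ, (∑ v ∈ τᶜ, if labF (insert v τ) = labF τ then sgn v τ • q (insert v τ) else 0) = 0) :
    (-q {0, 1, 2, 5}) + (q {0, 2, 3, 5}) + (q {0, 2, 4, 5}) = 0 := by
  have h := hq {0, 2, 5}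
  have hc : ({0, 2, 5} : Finset (Fin 6))ᶜ = {1, 3, 4} := by decide
  rw [hc, Finset.sum_insert (by decide), Finset.sum_insert (by decide), Finset.sum_singleton,
    if_pos (by decide), if_pos (by decide), if_pos (by decide)] at h
  have e1 : (insert 1 {0, 2, 5} : Finset (Fin 6)) = {0, 1, 2, 5} := by decide
  have s1 : sgn (1 : Fin 6) {0, 2, 5} = -1 := by decide
  have e3 : (insert 3 {0, 2, 5} : Finset (Fin 6)) = {0, 2, 3, 5} := by decide
  have s3 : sgn (3 : Fin 6) {0, 2, 5} = 1 := by decide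
  have e4 : (insert 4 {0, 2, 5} : Finset (Fin 6)) = {0, 2, 4, 5} := by decide
  have s4 : sgn (4 : Fin 6) {0, 2, 5} = 1 := by decide
  rw [e1, s1, e3, s3, e4, s4] at h
  simpa [add_assoc] using h

theorem eq_035 {Y : Type} [AddCommGroup Y] (q : Finset (Fin 6) → Y) (hq0 : ∀ ρ, 0 ∉ ρ → q ρ = 0)
    (hq : ∀ τ, (∑ v ∈ τᶜ, if labF (insert v τ) = labF τ then sgn v τ • q (insert v τ) else 0) = 0) :
    (-q {0, 1, 3, 5}) + (-q {0, 2, 3, 5}) + (q {0, 3, 4, 5}) = 0 := by
  have h := hq {0, 3, 5}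
  have hc : ({0, 3, 5} : Finset (Fin 6))ᶜ = {1, 2, 4} := by decide
  rw [hc, Finset.sum_insert (by decide), Finset.sum_insert (by decide), Finset.sum_singleton,
    if_pos (by decide), if_pos (by decide), if_pos (by decide)] at h
  have e1 : (insert 1 {0, 3, 5} : Finset (Fin 6)) = {0, 1, 3, 5} := by decide
  have s1 : sgn (1 : Fin 6) {0, 3, 5} = -1 := by decide
  have e2 : (insert 2 {0, 3, 5} : Finset (Fin 6)) = {0, 2, 3, 5} := by decide
  have s2 : sgn (2 : Fin 6) {0, 3, 5} = -1 := by decide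
  have e4 : (insert 4 {0, 3, 5} : Finset (Fin 6)) = {0, 3, 4, 5} := by decide
  have s4 : sgn (4 : Fin 6) {0, 3, 5} = 1 := by decide
  rw [e1, s1, e2, s2, e4, s4] at h
  simpa [add_assoc] using h

theorem eq_123 {Y : Type} [AddCommGroup Y] (q : Finset (Fin 6) → Y) (hq0 : ∀ ρ, 0 ∉ ρ → q ρ = 0)
    (hq : ∀ τ, (∑ v ∈ τᶜ, if labF (insert v τ) = labF τ then sgn v τ • q (insert v τ) else 0) = 0) :
    (q {0, 1, 2, 3}) = 0 := by
  have h := hq {1, 2, 3}
  have hc : ({1, 2, 3} : Finset (Fin 6))ᶜ = {0, 4, 5} := by decide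
  rw [hc, Finset.sum_insert (by decide), Finset.sum_insert (by decide), Finset.sum_singleton,
    if_pos (by decide), if_pos (by decide), if_pos (by decide)] at h
  have e0 : (insert 0 {1, 2, 3} : Finset (Fin 6)) = {0, 1, 2, 3} := by decide
  have s0 : sgn (0 : Fin 6) {1, 2, 3} = 1 := by decide
  have e4 : (insert 4 {1, 2, 3} : Finset (Fin 6)) = {1, 2, 3, 4} := by decide
  have s4 : sgn (4 : Fin 6) {1, 2, 3} = -1 := by decide
  have e5 : (insert 5 {1, 2, 3} : Finset (Fin 6)) = {1, 2, 3, 5} := by decide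
  have s5 : sgn (5 : Fin 6) {1, 2, 3} = -1 := by decide
  rw [e0, s0, e4, s4, e5, s5] at h
  rw [hq0 {1, 2, 3, 4} (by decide), hq0 {1, 2, 3, 5} (by decide)] at h
  simpa [add_assoc] using h

theorem eq_125 {Y : Type} [AddCommGroup Y] (q : Finset (Fin 6) → Y) (hq0 : ∀ ρ, 0 ∉ ρ → q ρ = 0)
    (hq : ∀ τ, (∑ v ∈ τᶜ, if labF (insert v τ) = labF τ then sgn v τ • q (insert v τ) else 0) = 0) :
    (q {0, 1, 2, 5}) = 0 := by
  have h := hq {1, 2, 5}
  have hc : ({1, 2, 5} : Finset (Fin 6))ᶜ = {0, 3, 4} := by decide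
  rw [hc, Finset.sum_insert (by decide), Finset.sum_insert (by decide), Finset.sum_singleton,
    if_pos (by decide), if_pos (by decide), if_pos (by decide)] at h
  have e0 : (insert 0 {1, 2, 5} : Finset (Fin 6)) = {0, 1, 2, 5} := by decide
  have s0 : sgn (0 : Fin 6) {1, 2, 5} = 1 := by decide
  have e3 : (insert 3 {1, 2, 5} : Finset (Fin 6)) = {1, 2, 3, 5} := by decide
  have s3 : sgn (3 : Fin 6) {1, 2, 5} = 1 := by decide
  have e4 : (insert 4 {1, 2, 5} : Finset (Fin 6)) = {1, 2, 4, 5} := by decide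
  have s4 : sgn (4 : Fin 6) {1, 2, 5} = 1 := by decide
  rw [e0, s0, e3, s3, e4, s4] at h
  rw [hq0 {1, 2, 3, 5} (by decide), hq0 {1, 2, 4, 5} (by decide)] at h
  simpa [add_assoc] using h

theorem eq_145 {Y : Type} [AddCommGroup Y] (q : Finset (Fin 6) → Y) (hq0 : ∀ ρ, 0 ∉ ρ → q ρ = 0)
    (hq : ∀ τ, (∑ v ∈ τᶜ, if labF (insert v τ) = labF τ then sgn v τ • q (insert v τ) else 0) = 0) :
    (q {0, 1, 4, 5}) = 0 := by
  have h := hq {1, 4, 5}
  have hc : ({1, 4, 5} : Finset (Fin 6))ᶜ = {0, 2, 3} := by decide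
  rw [hc, Finset.sum_insert (by decide), Finset.sum_insert (by decide), Finset.sum_singleton,
    if_pos (by decide), if_pos (by decide), if_pos (by decide)] at h
  have e0 : (insert 0 {1, 4, 5} : Finset (Fin 6)) = {0, 1, 4, 5} := by decide
  have s0 : sgn (0 : Fin 6) {1, 4, 5} = 1 := by decide
  have e2 : (insert 2 {1, 4, 5} : Finset (Fin 6)) = {1, 2, 4, 5} := by decide
  have s2 : sgn (2 : Fin 6) {1, 4, 5} = -1 := by decide
  have e3 : (insert 3 {1, 4, 5} : Finset (Fin 6)) = {1, 3, 4, 5} := by decide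
  have s3 : sgn (3 : Fin 6) {1, 4, 5} = -1 := by decide
  rw [e0, s0, e2, s2, e3, s3] at h
  rw [hq0 {1, 2, 4, 5} (by decide), hq0 {1, 3, 4, 5} (by decide)] at h
  simpa [add_assoc] using h

theorem eq_234 {Y : Type} [AddCommGroup Y] (q : Finset (Fin 6) → Y) (hq0 : ∀ ρ, 0 ∉ ρ → q ρ = 0)
    (hq : ∀ τ, (∑ v ∈ τᶜ, if labF (insert v τ) = labF τ then sgn v τ • q (insert v τ) else 0) = 0) :
    (q {0, 2, 3, 4}) = 0 := by
  have h := hq {2, 3, 4}
  have hc : ({2, 3, 4} : Finset (Fin 6))ᶜ = {0, 1, 5} := by decide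
  rw [hc, Finset.sum_insert (by decide), Finset.sum_insert (by decide), Finset.sum_singleton,
    if_pos (by decide), if_pos (by decide), if_pos (by decide)] at h
  have e0 : (insert 0 {2, 3, 4} : Finset (Fin 6)) = {0, 2, 3, 4} := by decide
  have s0 : sgn (0 : Fin 6) {2, 3, 4} = 1 := by decide
  have e1 : (insert 1 {2, 3, 4} : Finset (Fin 6)) = {1, 2, 3, 4} := by decide
  have s1 : sgn (1 : Fin 6) {2, 3, 4} = 1 := by decide
  have e5 : (insert 5 {2, 3, 4} : Finset (Fin 6)) = {2, 3, 4, 5} := by decide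
  have s5 : sgn (5 : Fin 6) {2, 3, 4} = -1 := by decide
  rw [e0, s0, e1, s1, e5, s5] at h
  rw [hq0 {1, 2, 3, 4} (by decide), hq0 {2, 3, 4, 5} (by decide)] at h
  simpa [add_assoc] using h

theorem eq_345 {Y : Type} [AddCommGroup Y] (q : Finset (Fin 6) → Y) (hq0 : ∀ ρ, 0 ∉ ρ → q ρ = 0)
    (hq : ∀ τ, (∑ v ∈ τᶜ, if labF (insert v τ) = labF τ then sgn v τ • q (insert v τ) else 0) = 0) :
    (q {0, 3, 4, 5}) = 0 := by
  have h := hq {3, 4, 5}
  have hc : ({3, 4, 5} : Finset (Fin 6))ᶜ = {0, 1, 2} := by decide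
  rw [hc, Finset.sum_insert (by decide), Finset.sum_insert (by decide), Finset.sum_singleton,
    if_pos (by decide), if_pos (by decide), if_pos (by decide)] at h
  have e0 : (insert 0 {3, 4, 5} : Finset (Fin 6)) = {0, 3, 4, 5} := by decide
  have s0 : sgn (0 : Fin 6) {3, 4, 5} = 1 := by decide
  have e1 : (insert 1 {3, 4, 5} : Finset (Fin 6)) = {1, 3, 4, 5} := by decide
  have s1 : sgn (1 : Fin 6) {3, 4, 5} = 1 := by decide
  have e2 : (insert 2 {3, 4, 5} : Finset (Fin 6)) = {2, 3, 4, 5} := by decide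
  have s2 : sgn (2 : Fin 6) {3, 4, 5} = 1 := by decide
  rw [e0, s0, e1, s1, e2, s2] at h
  rw [hq0 {1, 3, 4, 5} (by decide), hq0 {2, 3, 4, 5} (by decide)] at h
  simpa [add_assoc] using h

/-- Sum of the ten relations. -/
theorem rels {Y : Type} [AddCommGroup Y] (q : Finset (Fin 6) → Y) (hq0 : ∀ ρ, 0 ∉ ρ → q ρ = 0)
    (hq : ∀ τ, (∑ v ∈ τᶜ, if labF (insert v τ) = labF τ then sgn v τ • q (insert v τ) else 0) = 0) :
    q {0, 1, 2, 3} = 0 ∧ q {0, 1, 2, 5} = 0 ∧ q {0, 1, 4, 5} = 0 ∧ q {0, 2, 3, 4} = 0 ∧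
      q {0, 3, 4, 5} = 0 ∧ q {0, 1, 3, 4} = - q {0, 1, 3, 5} ∧ q {0, 1, 2, 4} = - q {0, 1, 3, 4} ∧
      q {0, 2, 4, 5} = - q {0, 1, 2, 4} ∧ q {0, 2, 3, 5} = - q {0, 2, 4, 5} ∧
      q {0, 1, 3, 5} = - q {0, 2, 3, 5} := by
  have h1 := eq_123 q hq0 hq
  have h2 := eq_125 q hq0 hq
  have h3 := eq_145 q hq0 hq
  have h4 := eq_234 q hq0 hq
  have h5 := eq_345 q hq0 hq
  have h6 := eq_013 q hq0 hq
  have h7 := eq_014 q hq0 hq
  have h8 := eq_024 q hq0 hq
  have h9 := eq_025 q hq0 hq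
  have h10 := eq_035 q hq0 hq
  rw [h1, zero_add] at h6
  rw [h3, neg_zero, add_zero] at h7
  rw [h4, add_zero] at h8
  rw [h2, neg_zero, zero_add] at h9
  rw [h5, add_zero] at h10
  refine ⟨h1, h2, h3, h4, h5, ?_, ?_, ?_, ?_, ?_⟩
  · rw [← neg_add, neg_eq_zero] at h6
    exact eq_neg_of_add_eq_zero_left h6
  · exact eq_neg_of_add_eq_zero_left h7
  · rw [← neg_add, neg_eq_zero, add_comm] at h8
    exact eq_neg_of_add_eq_zero_left h8
  · exact eq_neg_of_add_eq_zero_left h9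
  · rw [← neg_add, neg_eq_zero] at h10
    exact eq_neg_of_add_eq_zero_left h10

/-- Every top set is one of ten. -/
theorem top_cases (τ : Finset (Fin 6)) (h : τ.card = 4 ∧ 0 ∈ τ) :
    τ = {0, 1, 2, 3} ∨ τ = {0, 1, 2, 5} ∨ τ = {0, 1, 4, 5} ∨ τ = {0, 2, 3, 4} ∨
      τ = {0, 3, 4, 5} ∨ τ = {0, 1, 3, 4} ∨ τ = {0, 1, 2, 4} ∨
      τ = {0, 2, 4, 5} ∨ τ = {0, 2, 3, 5} ∨ τ = {0, 1, 3, 5} := by
  revert h
  revert τ
  decide

theorem extY_apply_top (y : Top (0 : Fin 6) 3 → Y) (τ : Top (0 : Fin 6) 3) :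
    extY (k := k) (σ := Fin 12) Y (0 : Fin 6) 3 y τ.1 = y τ := dif_pos τ.2

theorem extY_not (y : Top (0 : Fin 6) 3 → Y) (ρ : Finset (Fin 6)) (h : 0 ∉ ρ) :
    extY (k := k) (σ := Fin 12) Y (0 : Fin 6) 3 y ρ = 0 := dif_neg fun h2 => h h2.2

/-- The kernel vanishes if `2` is invertible. -/
theorem KY_zero (hY : ∀ (i : Fin 12) (y : Y), (X i : MvPolynomial (Fin 12) k) • y = 0)
    (h2 : ∀ y : Y, y = -y → y = 0) :
    Module.length (MvPolynomial (Fin 12) k) (KY (k := k) av Y (0 : Fin 6) 3) = 0 := by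
  rw [Module.length_eq_zero_iff]
  refine subsingleton_of_forall_eq 0 ?_
  rintro ⟨y, hy⟩
  apply Subtype.ext
  funext τ
  have hq : ∀ τ, (∑ v ∈ τᶜ, if labF (insert v τ) = labF τ then sgn v τ •
      (extY (k := k) (σ := Fin 12) Y (0 : Fin 6) 3 y) (insert v τ) else 0) = 0 := by
    intro τ
    rw [← ddY_eq hY]
    exact congrFun hy τ
  obtain ⟨r1, r2, r3, r4, r5, r6, r7, r8, r9, r10⟩ := rels _ (extY_not (k := k) y) hq
  have h0 : extY (k := k) (σ := Fin 12) Y (0 : Fin 6) 3 y {0, 1, 3, 5} = 0 := by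
    apply h2
    conv_lhs => rw [r10, r9, r8, r7, r6]
    simp
  rw [h0] at r6
  rw [neg_zero] at r6
  rw [r6, neg_zero] at r7
  rw [r7, neg_zero] at r8
  rw [r8, neg_zero] at r9
  have h11 := extY_apply_top (k := k) y τ
  change y τ = (0 : Y)
  rw [← h11]
  rcases top_cases τ.1 τ.2 with h | h | h | h | h | h | h | h | h | h <;> rw [h] <;> assumption

/-- The five special sets. -/
def PP : Finset (Finset (Fin 6)) :=
  {{0, 1, 3, 5}, {0, 1, 3, 4}, {0, 1, 2, 4}, {0, 2, 4, 5}, {0, 2, 3, 5}}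

theorem PP_sub : ∀ ρ ∈ PP, ρ.card = 4 ∧ 0 ∈ ρ := by decide

theorem PP_even : ∀ τ : Finset (Fin 6), Even
    ((τᶜ.filter fun v => labF (insert v τ) = labF τ ∧ insert v τ ∈ PP).card) := by
  decide +kernel

/-- The solution in characteristic two. -/
def sol (t : Y) : Top (0 : Fin 6) 3 → Y := fun τ => if τ.1 ∈ PP then t else 0

theorem extY_sol (t : Y) (ρ : Finset (Fin 6)) :
    extY (k := k) (σ := Fin 12) Y (0 : Fin 6) 3 (sol t) ρ = if ρ ∈ PP then t else 0 := by
  by_cases h : ρ.card = 4 ∧ 0 ∈ ρ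
  · exact dif_pos h
  · have h1 : extY (k := k) (σ := Fin 12) Y (0 : Fin 6) 3 (sol t) ρ = 0 := dif_neg h
    rw [h1, if_neg]
    intro h2
    exact h (PP_sub ρ h2)

theorem sgn_smul_two (h2 : ∀ y : Y, y + y = 0) (v : Fin 6) (τ : Finset (Fin 6)) (t : Y) :
    sgn v τ • t = t := by
  unfold sgn
  rcases Nat.even_or_odd (τ.filter (· < v)).card with h | h
  · rw [h.neg_one_pow, one_smul]
  · rw [h.neg_one_pow, neg_smul, one_smul]
    exact neg_eq_of_add_eq_zero_left (h2 t)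

theorem sol_mem (hY : ∀ (i : Fin 12) (y : Y), (X i : MvPolynomial (Fin 12) k) • y = 0)
    (h2 : ∀ y : Y, y + y = 0) (t : Y) : sol t ∈ KY (k := k) av Y (0 : Fin 6) 3 := by
  rw [KY, LinearMap.mem_ker, LinearMap.comp_apply]
  funext τ
  rw [ddY_eq hY]
  have h3 : ∀ v ∈ τᶜ, (if labF (insert v τ) = labF τ then sgn v τ •
      (extY (k := k) (σ := Fin 12) Y (0 : Fin 6) 3 (sol t)) (insert v τ) else 0) =
      if labF (insert v τ) = labF τ ∧ insert v τ ∈ PP then t else 0 := by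
    intro v _
    rw [extY_sol, sgn_smul_two h2]
    split_ifs <;> simp_all
  rw [Finset.sum_congr rfl h3, ← Finset.sum_filter, Finset.sum_const]
  obtain ⟨m, hm⟩ := PP_even τ
  rw [hm, add_smul, ← smul_add, h2, smul_zero]
  rfl

/-- The kernel is a copy of `Y` in characteristic two. -/
theorem KY_two (hY : ∀ (i : Fin 12) (y : Y), (X i : MvPolynomial (Fin 12) k) • y = 0)
    (h2 : ∀ y : Y, y + y = 0) :
    Module.length (MvPolynomial (Fin 12) k) (KY (k := k) av Y (0 : Fin 6) 3) =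
      Module.length (MvPolynomial (Fin 12) k) Y := by
  let f : Y →ₗ[MvPolynomial (Fin 12) k] KY (k := k) av Y (0 : Fin 6) 3 :=
    { toFun := fun t => ⟨sol t, sol_mem hY h2 t⟩
      map_add' := by
        intro s t
        apply Subtype.ext
        funext τ
        change sol (s + t) τ = sol s τ + sol t τ
        unfold sol
        split_ifs <;> simp
      map_smul' := by
        intro r t
        apply Subtype.ext
        funext τ
        change sol (r • t) τ = r • sol t τ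
        unfold sol
        split_ifs <;> simp }
  have hf : Function.Bijective f := by
    constructor
    · rw [injective_iff_map_eq_zero]
      intro t ht
      have h3 := congrFun (congrArg Subtype.val ht) ⟨{0, 1, 3, 5}, by decide⟩
      change (if ({0, 1, 3, 5} : Finset (Fin 6)) ∈ PP then t else 0) = 0 at h3
      rwa [if_pos (by decide)] at h3
    · rintro ⟨y, hy⟩
      have hq : ∀ τ, (∑ v ∈ τᶜ, if labF (insert v τ) = labF τ then sgn v τ •
          (extY (k := k) (σ := Fin 12) Y (0 : Fin 6) 3 y) (insert v τ) else 0) = 0 := by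
        intro τ
        rw [← ddY_eq hY]
        exact congrFun hy τ
      obtain ⟨r1, r2, r3, r4, r5, r6, r7, r8, r9, r10⟩ := rels _ (extY_not (k := k) y) hq
      have hneg : ∀ t : Y, -t = t := fun t => neg_eq_of_add_eq_zero_left (h2 t)
      rw [hneg] at r6 r7 r8 r9
      refine ⟨extY (k := k) (σ := Fin 12) Y (0 : Fin 6) 3 y {0, 1, 3, 5}, ?_⟩
      apply Subtype.ext
      funext τ
      change (if τ.1 ∈ PP then extY (k := k) (σ := Fin 12) Y (0 : Fin 6) 3 y {0, 1, 3, 5} else 0) =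
        y τ
      rw [← extY_apply_top (k := k) y τ]
      rcases top_cases τ.1 τ.2 with h | h | h | h | h | h | h | h | h | h <;> rw [h]
      · rw [if_neg (by decide), r1]
      · rw [if_neg (by decide), r2]
      · rw [if_neg (by decide), r3]
      · rw [if_neg (by decide), r4]
      · rw [if_neg (by decide), r5]
      · rw [if_pos (by decide), r6]
      · rw [if_pos (by decide), r7, r6]
      · rw [if_pos (by decide), r8, r7, r6]
      · rw [if_pos (by decide), r9, r8, r7, r6]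
      · rw [if_pos (by decide)]
  exact (LinearEquiv.ofBijective f hf).length_eq.symm

end rp2

end Pool.Agent.MP_76aa63_al
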