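import Mathlib
import Pool.Agent.MP_76aa63_al.RP2

set_option autoImplicit false

namespace Pool.Agent.MP_76aa63_al

open Finset MvPolynomial TensorProduct

section up

variable {σ : Type} {k : Type} [Field k]

/-- Polynomials all of whose exponents satisfy an upward closed condition. -/
def up (k : Type) [Field k] (P : (σ →₀ ℕ) → Prop) (hP : ∀ b c, P b → b ≤ c → P c) :
    Ideal (MvPolynomial σ k) where
  carrier := {f | ∀ b, coeff b f ≠ 0 → P b}
  add_mem' := by
    intro f g hf hg b hb
    rw [coeff_add] at hb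
    by_cases h : coeff b f = 0
    · rw [h, zero_add] at hb
      exact hg b hb
    · exact hf b h
  zero_mem' := by
    intro b hb
    exact absurd (coeff_zero b) hb
  smul_mem' := by
    classical
    intro r f hf b hb
    rw [smul_eq_mul, coeff_mul] at hb
    obtain ⟨⟨c, d⟩, hcd, hne⟩ := Finset.exists_ne_zero_of_sum_ne_zero hb
    rw [Finset.HasAntidiagonal.mem_antidiagonal] at hcd
    dsimp only at hcd hne
    have hd : coeff d f ≠ 0 := right_ne_zero_of_mul hne
    exact hP d b (hf d hd) (by rw [← hcd]; exact le_add_self)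

theorem mem_up {P : (σ →₀ ℕ) → Prop} {hP : ∀ b c, P b → b ≤ c → P c} {f : MvPolynomial σ k} :
    f ∈ up k P hP ↔ ∀ b, coeff b f ≠ 0 → P b := Iff.rfl

theorem span_eq_up (s : Set (σ →₀ ℕ)) (P : (σ →₀ ℕ) → Prop) (hP : ∀ b c, P b → b ≤ c → P c)
    (h : ∀ b, P b ↔ ∃ a ∈ s, a ≤ b) :
    Ideal.span ((fun a => monomial a (1 : k)) '' s) = up k P hP := by
  ext f
  rw [mem_ideal_span_monomial_image, mem_up]
  simp only [mem_support_iff, h]

theorem up_mul (P Q R : (σ →₀ ℕ) → Prop) (hP : ∀ b c, P b → b ≤ c → P c)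
    (hQ : ∀ b c, Q b → b ≤ c → Q c) (hR : ∀ b c, R b → b ≤ c → R c)
    (h1 : ∀ b c, P b → Q c → R (b + c)) (h2 : ∀ b, R b → ∃ c d, P c ∧ Q d ∧ b = c + d) :
    up k P hP * up k Q hQ = up k R hR := by
  classical
  apply le_antisymm
  · rw [Ideal.mul_le]
    intro f hf g hg b hb
    rw [coeff_mul] at hb
    obtain ⟨⟨c, d⟩, hcd, hne⟩ := Finset.exists_ne_zero_of_sum_ne_zero hb
    rw [Finset.HasAntidiagonal.mem_antidiagonal] at hcd
    dsimp only at hcd hne
    rw [← hcd]
    exact h1 c d (hf c (left_ne_zero_of_mul hne)) (hg d (right_ne_zero_of_mul hne))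
  · intro f hf
    rw [f.as_sum]
    apply Ideal.sum_mem
    intro b hb
    obtain ⟨c, d, hc, hd, rfl⟩ := h2 b (hf b (mem_support_iff.1 hb))
    have : monomial (c + d) (coeff (c + d) f) = monomial c 1 * monomial d (coeff (c + d) f) := by
      rw [monomial_mul, one_mul]
    rw [this]
    apply Ideal.mul_mem_mul
    · intro e he
      rw [coeff_monomial] at he
      split_ifs at he with h
      · rw [← h]; exact hc
      · exact absurd rfl he
    · intro e he
      rw [coeff_monomial] at he
      split_ifs at he with h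
      · rw [← h]; exact hd
      · exact absurd rfl he

theorem coeff_add_X_mul (i : σ) (b : σ →₀ ℕ) (f : MvPolynomial σ k) :
    coeff (b + Finsupp.single i 1) (X i * f) = coeff b f := by
  rw [mul_comm, coeff_mul_X]

theorem exists_X_mul (i : σ) (f : MvPolynomial σ k) (h : ∀ b, coeff b f ≠ 0 → b i ≠ 0) :
    ∃ g, f = X i * g := by
  obtain ⟨g, hg⟩ := exists_lift (Finsupp.single i 1) f (fun b hb => by
    rw [Finsupp.single_le_iff]
    have := h b hb
    omega)
  exact ⟨g, hg⟩

theorem T_up_regular (Y : ModuleCat.{0} (MvPolynomial σ k)) (i : σ)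
    (hY : ∀ y : Y, (X i : MvPolynomial σ k) • y = 0)
    (P Q : (σ →₀ ℕ) → Prop) (hP : ∀ b c, P b → b ≤ c → P c) (hQ : ∀ b c, Q b → b ≤ c → Q c)
    (hPi : ∀ b, P (b + Finsupp.single i 1) → P b) (hPQ : ∀ b, Q b ↔ (b i ≠ 0 ∨ P b)) (n : ℕ) :
    T Y (n + 1) (MvPolynomial σ k ⧸ up k Q hQ) =
      T Y (n + 1) (MvPolynomial σ k ⧸ up k P hP) + T Y n (MvPolynomial σ k ⧸ up k P hP) := by
  have hle : up k P hP ≤ up k Q hQ := by
    intro f hf b hb
    rw [hPQ]
    exact Or.inr (hf b hb)
  let g : (MvPolynomial σ k ⧸ up k P hP) →ₗ[MvPolynomial σ k] (MvPolynomial σ k ⧸ up k Q hQ) :=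
    Submodule.factor hle
  refine T_regular Y (X i) hY ?_ g (Submodule.factor_surjective hle) ?_ n
  · intro m hm
    obtain ⟨f, rfl⟩ := Submodule.mkQ_surjective _ m
    rw [← map_smul, Submodule.mkQ_apply, Submodule.Quotient.mk_eq_zero, smul_eq_mul] at hm
    rw [Submodule.mkQ_apply, Submodule.Quotient.mk_eq_zero]
    intro b hb
    apply hPi
    apply hm
    rwa [coeff_add_X_mul]
  · intro m
    obtain ⟨f, rfl⟩ := Submodule.mkQ_surjective _ m
    have h1 : g ((up k P hP).mkQ f) = (up k Q hQ).mkQ f := rfl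
    rw [h1, Submodule.mkQ_apply, Submodule.Quotient.mk_eq_zero]
    constructor
    · intro hf
      obtain ⟨f', hf'⟩ := exists_X_mul i (proj (fun b => b i ≠ 0) f) (fun b hb => by
        rw [coeff_proj] at hb
        split_ifs at hb with h
        · exact h
        · exact absurd rfl hb)
      refine ⟨(up k P hP).mkQ f', ?_⟩
      rw [← map_smul, smul_eq_mul, ← hf', ← sub_eq_zero, ← map_sub, Submodule.mkQ_apply,
        Submodule.Quotient.mk_eq_zero]
      intro b hb
      rw [coeff_sub, coeff_proj] at hb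
      split_ifs at hb with h
      · rw [sub_self] at hb
        exact absurd rfl hb
      · rw [zero_sub, neg_ne_zero] at hb
        have h2 := (hPQ b).1 (hf b hb)
        rcases h2 with h2 | h2
        · exact absurd h2 h
        · exact h2
    · rintro ⟨m', hm'⟩
      obtain ⟨f', rfl⟩ := Submodule.mkQ_surjective _ m'
      rw [← map_smul, smul_eq_mul, ← sub_eq_zero, ← map_sub, Submodule.mkQ_apply,
        Submodule.Quotient.mk_eq_zero] at hm'
      have h3 : f = X i * f' - (X i * f' - f) := by ring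
      rw [h3]
      apply Ideal.sub_mem _ _ (hle hm')
      classical
      intro b hb
      rw [hPQ]
      left
      intro h0
      apply hb
      rw [mul_comm, coeff_mul_X', if_neg]
      rw [Finsupp.mem_support_iff, not_not]
      exact h0

end up

end Pool.Agent.MP_76aa63_al
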