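import Mathlib
import Pool.Agent.MP_76aa63_al.UpIdeal

set_option autoImplicit false

namespace Pool.Agent.MP_76aa63_al

open Finset MvPolynomial TensorProduct

section reduce

variable {k : Type} [Field k]

/-- Exponent of `u ^ i v ^ j`. -/
noncomputable def ge (i j : ℕ) : Fin 12 →₀ ℕ := Finsupp.single 10 i + Finsupp.single 11 j

theorem ge_10 (i j : ℕ) : ge i j 10 = i := by simp [ge]

theorem ge_11 (i j : ℕ) : ge i j 11 = j := by simp [ge]

theorem ge_other (i j : ℕ) (x : Fin 12) (h : x ≠ 10) (h' : x ≠ 11) : ge i j x = 0 := by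
  simp [ge, Finsupp.single_apply, h.symm, h'.symm]

theorem av_10 (w : Fin 6) : av w 10 = 0 := by
  rw [av_apply]; rfl

theorem av_11 (w : Fin 6) : av w 11 = 0 := by
  rw [av_apply]; rfl

/-- Condition for `(u, v) ^ m`. -/
def PQ (m : ℕ) (b : Fin 12 →₀ ℕ) : Prop := m ≤ b 10 + b 11

theorem PQ_up (m : ℕ) : ∀ b c, PQ m b → b ≤ c → PQ m c := by
  intro b c hb hbc
  have h1 := hbc 10
  have h2 := hbc 11
  unfold PQ at *
  omega

/-- Condition for the power of the ideal. -/
def PI (l : ℕ) (b : Fin 12 →₀ ℕ) : Prop :=
  3 * l ≤ b 10 + b 11 ∧ (b 10 = 1 → b 11 + 1 = 3 * l → ∃ w, av w ≤ b)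

theorem PI_up (l : ℕ) : ∀ b c, PI l b → b ≤ c → PI l c := by
  intro b c hb hbc
  have h1 := hbc 10
  have h2 := hbc 11
  refine ⟨?_, ?_⟩
  · have := hb.1
    omega
  · intro h3 h4
    have h5 := hb.1
    obtain ⟨w, hw⟩ := hb.2 (by omega) (by omega)
    exact ⟨w, hw.trans hbc⟩

/-- Condition for the ideal `A`. -/
def PA (b : Fin 12 →₀ ℕ) : Prop := ∃ w, av w ≤ b

theorem PA_up : ∀ b c, PA b → b ≤ c → PA c := by
  rintro b c ⟨w, hw⟩ hbc
  exact ⟨w, hw.trans hbc⟩

/-- Condition for the ideal `A + (u)`. -/
def PAu (b : Fin 12 →₀ ℕ) : Prop := b 10 ≠ 0 ∨ PA b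

theorem PAu_up : ∀ b c, PAu b → b ≤ c → PAu c := by
  rintro b c hb hbc
  have h1 := hbc 10
  rcases hb with h | h
  · left; omega
  · right; exact PA_up b c h hbc

/-- Condition for the ideal `A + (u, v)`. -/
def PB (b : Fin 12 →₀ ℕ) : Prop := b 11 ≠ 0 ∨ PAu b

theorem PB_up : ∀ b c, PB b → b ≤ c → PB c := by
  rintro b c hb hbc
  have h1 := hbc 11
  rcases hb with h | h
  · left; omega
  · right; exact PAu_up b c h hbc

theorem PA_of_add (b : Fin 12 →₀ ℕ) (c : Fin 12 →₀ ℕ) (hc : ∀ x, x ≠ 10 → x ≠ 11 → c x = 0)
    (h : PA (b + c)) : PA b := by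
  obtain ⟨w, hw⟩ := h
  refine ⟨w, fun x => ?_⟩
  by_cases h10 : x = 10
  · subst h10
    rw [av_10]
    exact Nat.zero_le _
  · by_cases h11 : x = 11
    · subst h11
      rw [av_11]
      exact Nat.zero_le _
    · have h1 := hw x
      rw [Finsupp.add_apply, hc x h10 h11] at h1
      simpa using h1

theorem PI_mul (l : ℕ) (hl : 1 ≤ l) :
    up k (PI l) (PI_up l) * up k (PI 1) (PI_up 1) = up k (PI (l + 1)) (PI_up (l + 1)) := by
  apply up_mul
  · intro b c hb hc
    have hb1 := hb.1
    have hc1 := hc.1
    refine ⟨?_, ?_⟩
    · simp only [Finsupp.add_apply]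
      omega
    · simp only [Finsupp.add_apply]
      intro h1 h2
      by_cases h3 : b 10 = 1
      · obtain ⟨w, hw⟩ := hb.2 h3 (by omega)
        exact ⟨w, hw.trans le_self_add⟩
      · obtain ⟨w, hw⟩ := hc.2 (by omega) (by omega)
        exact ⟨w, hw.trans le_add_self⟩
  · intro b hb
    have hb1 := hb.1
    by_cases h3 : 3 ≤ b 11
    · refine ⟨b - ge 0 3, ge 0 3, ?_, ?_, ?_⟩
      · refine ⟨?_, ?_⟩
        · simp only [Finsupp.tsub_apply, ge_10, ge_11]
          omega
        · simp only [Finsupp.tsub_apply, ge_10, ge_11]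
          intro h1 h2
          obtain ⟨w, hw⟩ := hb.2 (by omega) (by omega)
          refine ⟨w, ?_⟩
          intro x
          by_cases h10 : x = 10
          · subst h10
            rw [av_10]
            exact Nat.zero_le _
          · by_cases h11 : x = 11
            · subst h11
              rw [av_11]
              exact Nat.zero_le _
            · have h4 := hw x
              rw [Finsupp.tsub_apply, ge_other _ _ _ h10 h11]
              simpa using h4
      · refine ⟨?_, ?_⟩
        · rw [ge_10, ge_11]
        · rw [ge_10]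
          intro h; omega
      · rw [tsub_add_cancel_of_le]
        intro x
        by_cases h10 : x = 10
        · subst h10
          rw [ge_10]
          exact Nat.zero_le _
        · by_cases h11 : x = 11
          · subst h11
            rw [ge_11]
            exact h3
          · rw [ge_other _ _ _ h10 h11]
            exact Nat.zero_le _
    · by_cases h4 : b 10 = 4 ∧ b 11 = 2
      · refine ⟨b - ge 2 1, ge 2 1, ?_, ?_, ?_⟩
        · refine ⟨?_, ?_⟩
          · simp only [Finsupp.tsub_apply, ge_10, ge_11]
            omega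
          · simp only [Finsupp.tsub_apply, ge_10, ge_11]
            intro h1 h2
            omega
        · refine ⟨?_, ?_⟩
          · rw [ge_10, ge_11]
          · rw [ge_10]
            intro h; omega
        · rw [tsub_add_cancel_of_le]
          intro x
          by_cases h10 : x = 10
          · subst h10
            rw [ge_10]
            omega
          · by_cases h11 : x = 11
            · subst h11
              rw [ge_11]
              omega
            · rw [ge_other _ _ _ h10 h11]
              exact Nat.zero_le _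
      · refine ⟨b - ge 3 0, ge 3 0, ?_, ?_, ?_⟩
        · refine ⟨?_, ?_⟩
          · simp only [Finsupp.tsub_apply, ge_10, ge_11]
            omega
          · simp only [Finsupp.tsub_apply, ge_10, ge_11]
            intro h1 h2
            omega
        · refine ⟨?_, ?_⟩
          · rw [ge_10, ge_11]
          · rw [ge_10]
            intro h; omega
        · rw [tsub_add_cancel_of_le]
          intro x
          by_cases h10 : x = 10
          · subst h10
            rw [ge_10]
            omega
          · by_cases h11 : x = 11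
            · subst h11
              rw [ge_11]
              omega
            · rw [ge_other _ _ _ h10 h11]
              exact Nat.zero_le _

theorem pow_eq (l : ℕ) (hl : 1 ≤ l) :
    (up k (PI 1) (PI_up 1)) ^ l = up k (PI l) (PI_up l) := by
  induction l, hl using Nat.le_induction with
  | base => rw [pow_one]
  | succ l hl ih => rw [pow_succ, ih, PI_mul l hl]

/-- The nine exponents generating the ideal `I`. -/
noncomputable def gens : Finset (Fin 12 →₀ ℕ) :=
  {ge 0 3, ge 2 1, ge 3 0} ∪ Finset.univ.image (fun w => ge 1 2 + av w)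

theorem PI_one_iff (b : Fin 12 →₀ ℕ) : PI 1 b ↔ ∃ a ∈ gens, a ≤ b := by
  have hle : ∀ i j, i ≤ b 10 → j ≤ b 11 → ge i j ≤ b := by
    intro i j hi hj x
    by_cases h10 : x = 10
    · subst h10
      rw [ge_10]
      exact hi
    · by_cases h11 : x = 11
      · subst h11
        rw [ge_11]
        exact hj
      · rw [ge_other _ _ _ h10 h11]
        exact Nat.zero_le _
  constructor
  · rintro ⟨h1, h2⟩
    by_cases h3 : 3 ≤ b 11
    · exact ⟨ge 0 3, by simp [gens], hle _ _ (Nat.zero_le _) h3⟩
    · by_cases h4 : 3 ≤ b 10
      · exact ⟨ge 3 0, by simp [gens], hle _ _ h4 (Nat.zero_le _)⟩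
      · by_cases h5 : b 10 = 2
        · exact ⟨ge 2 1, by simp [gens], hle _ _ (by omega) (by omega)⟩
        · obtain ⟨w, hw⟩ := h2 (by omega) (by omega)
          refine ⟨ge 1 2 + av w, by simp [gens], ?_⟩
          intro x
          rw [Finsupp.add_apply]
          by_cases h10 : x = 10
          · subst h10
            rw [ge_10, av_10]
            omega
          · by_cases h11 : x = 11
            · subst h11
              rw [ge_11, av_11]
              omega
            · rw [ge_other _ _ _ h10 h11, zero_add]
              exact hw x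
  · rintro ⟨a, ha, hab⟩
    simp only [gens, Finset.mem_union, Finset.mem_insert, Finset.mem_singleton,
      Finset.mem_image, Finset.mem_univ, true_and] at ha
    have h10 := hab 10
    have h11 := hab 11
    rcases ha with (rfl | rfl | rfl) | ⟨w, rfl⟩
    · rw [ge_10] at h10
      rw [ge_11] at h11
      exact ⟨by omega, by omega⟩
    · rw [ge_10] at h10
      rw [ge_11] at h11
      exact ⟨by omega, by omega⟩
    · rw [ge_10] at h10
      rw [ge_11] at h11
      exact ⟨by omega, by omega⟩
    · rw [Finsupp.add_apply, ge_10, av_10] at h10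
      rw [Finsupp.add_apply, ge_11, av_11] at h11
      refine ⟨by omega, fun _ _ => ⟨w, ?_⟩⟩
      exact le_trans le_add_self hab

end reduce

end Pool.Agent.MP_76aa63_al
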