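import Mathlib
import Pool.Agent.MP_76aa63_al.Reduce

set_option autoImplicit false

namespace Pool.Agent.MP_76aa63_al

open Finset MvPolynomial TensorProduct

section seq

variable {k : Type} [Field k]

/-- `(u, v) ^ m`. -/
abbrev Qm (k : Type) [Field k] (m : ℕ) : Ideal (MvPolynomial (Fin 12) k) := up k (PQ m) (PQ_up m)

theorem mono_mem_Q (m n : ℕ) (h : m ≤ n) : (monomial (ge 0 n) (1 : k)) ∈ Qm k m := by
  classical
  intro b hb
  rw [coeff_monomial] at hb
  split_ifs at hb with h
  · rw [← h]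
    unfold PQ
    rw [ge_10, ge_11]
    omega
  · exact absurd rfl hb

theorem X_mul_mem_Q (m : ℕ) (f : MvPolynomial (Fin 12) k) (hf : f ∈ Qm k m) :
    X 10 * f ∈ Qm k (m + 1) := by
  classical
  intro b hb
  rw [mul_comm, coeff_mul_X'] at hb
  split_ifs at hb with h
  · have h1 := hf _ hb
    unfold PQ at *
    rw [Finsupp.mem_support_iff] at h
    rw [Finsupp.tsub_apply, Finsupp.tsub_apply, Finsupp.single_eq_same,
      Finsupp.single_eq_of_ne (by decide)] at h1
    omega
  · exact absurd rfl hb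

/-- The map `S → Q_m × S`. -/
noncomputable def qf (m : ℕ) : MvPolynomial (Fin 12) k →ₗ[MvPolynomial (Fin 12) k]
    (Qm k m × MvPolynomial (Fin 12) k) :=
  LinearMap.prod
    (LinearMap.toSpanSingleton (MvPolynomial (Fin 12) k) (Qm k m)
      ⟨monomial (ge 0 (m + 1)) 1, mono_mem_Q m (m + 1) (Nat.le_succ m)⟩)
    (LinearMap.toSpanSingleton (MvPolynomial (Fin 12) k) (MvPolynomial (Fin 12) k) (-X 10))

/-- The map `Q_m × S → Q_{m+1}`. -/
noncomputable def qg (m : ℕ) : (Qm k m × MvPolynomial (Fin 12) k) →ₗ[MvPolynomial (Fin 12) k]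
    Qm k (m + 1) :=
  LinearMap.coprod
    (((LinearMap.mulLeft (MvPolynomial (Fin 12) k) (X 10)).domRestrict
      (Qm k m)).codRestrict _ (fun c => X_mul_mem_Q m c.1 c.2))
    (LinearMap.toSpanSingleton (MvPolynomial (Fin 12) k) (Qm k (m + 1))
      ⟨monomial (ge 0 (m + 1)) 1, mono_mem_Q (m + 1) (m + 1) le_rfl⟩)

theorem qf_apply (m : ℕ) (s : MvPolynomial (Fin 12) k) :
    ((qf m s).1 : MvPolynomial (Fin 12) k) = s * monomial (ge 0 (m + 1)) 1 ∧
      (qf m s).2 = s * (-X 10) := ⟨rfl, rfl⟩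

theorem qg_apply (m : ℕ) (c : Qm k m × MvPolynomial (Fin 12) k) :
    ((qg m c : Qm k (m + 1)) : MvPolynomial (Fin 12) k) =
      X 10 * c.1.1 + c.2 * monomial (ge 0 (m + 1)) 1 := rfl

theorem qf_injective (m : ℕ) : Function.Injective (qf (k := k) m) := by
  rw [injective_iff_map_eq_zero]
  intro s hs
  have h1 := congrArg Prod.snd hs
  rw [(qf_apply m s).2] at h1
  rcases mul_eq_zero.1 h1 with h2 | h2
  · exact h2
  · exact absurd (neg_eq_zero.1 h2) (X_ne_zero 10)

theorem mono_dvd_of (m : ℕ) (f : MvPolynomial (Fin 12) k)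
    (h : ∀ b, coeff b f ≠ 0 → m ≤ b 11) : ∃ g, f = monomial (ge 0 m) 1 * g := by
  apply exists_lift
  intro b hb x
  by_cases h10 : x = 10
  · subst h10
    rw [ge_10]
    exact Nat.zero_le _
  · by_cases h11 : x = 11
    · subst h11
      rw [ge_11]
      exact h b hb
    · rw [ge_other _ _ _ h10 h11]
      exact Nat.zero_le _

theorem exact_q (m : ℕ) : Function.Exact (qf (k := k) m) (qg m) := by
  classical
  intro c
  constructor
  · intro hc
    have h1 := congrArg Subtype.val hc
    rw [qg_apply] at h1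
    change X 10 * c.1.1 + c.2 * monomial (ge 0 (m + 1)) 1 = 0 at h1
    have h2 : ∀ b, coeff b c.1.1 ≠ 0 → m + 1 ≤ b 11 := by
      intro b hb
      rw [← coeff_add_X_mul 10] at hb
      rw [eq_neg_of_add_eq_zero_left h1, coeff_neg, neg_ne_zero, coeff_mul_monomial'] at hb
      split_ifs at hb with h3
      · have h4 := h3 11
        rw [ge_11, Finsupp.add_apply, Finsupp.single_eq_of_ne (by decide)] at h4
        exact h4
      · exact absurd rfl hb
    obtain ⟨g, hg⟩ := mono_dvd_of (m + 1) c.1.1 h2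
    refine ⟨g, ?_⟩
    apply Prod.ext
    · apply Subtype.ext
      rw [(qf_apply m g).1, hg, mul_comm]
    · rw [(qf_apply m g).2]
      rw [hg] at h1
      have h5 : (X 10 * g + c.2) * monomial (ge 0 (m + 1)) (1 : k) = 0 := by
        rw [← h1]; ring
      rcases mul_eq_zero.1 h5 with h6 | h6
      · have h7 := eq_neg_of_add_eq_zero_right h6
        rw [h7]; ring
      · simp at h6
  · rintro ⟨s, rfl⟩
    apply Subtype.ext
    rw [qg_apply, (qf_apply m s).1, (qf_apply m s).2]
    change _ = (0 : MvPolynomial (Fin 12) k)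
    ring

theorem qg_surjective (m : ℕ) : Function.Surjective (qg (k := k) m) := by
  classical
  rintro ⟨h, hh⟩
  obtain ⟨f, hf⟩ := exists_X_mul 10 (proj (fun b => b 10 ≠ 0) h) (fun b hb => by
    rw [coeff_proj] at hb
    split_ifs at hb with h
    · exact h
    · exact absurd rfl hb)
  have hfQ : f ∈ Qm k m := by
    intro b hb
    rw [← coeff_add_X_mul 10, ← hf, coeff_proj] at hb
    split_ifs at hb with h1
    · have h2 := hh _ hb
      unfold PQ at *
      rw [Finsupp.add_apply, Finsupp.add_apply, Finsupp.single_eq_same,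
        Finsupp.single_eq_of_ne (by decide)] at h2
      omega
    · exact absurd rfl hb
  obtain ⟨g, hg⟩ := mono_dvd_of (m + 1) (h - proj (fun b => b 10 ≠ 0) h) (fun b hb => by
    rw [coeff_sub, coeff_proj] at hb
    split_ifs at hb with h1
    · rw [sub_self] at hb
      exact absurd rfl hb
    · rw [sub_zero] at hb
      have h2 := hh b hb
      unfold PQ at h2
      push Not at h1
      omega)
  refine ⟨(⟨f, hfQ⟩, g), ?_⟩
  apply Subtype.ext
  rw [qg_apply]
  change X 10 * f + g * monomial (ge 0 (m + 1)) 1 = h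
  rw [← hf, mul_comm g, ← hg]
  ring

variable (Y : ModuleCat.{0} (MvPolynomial (Fin 12) k))

theorem T_Qm (m n : ℕ) : T Y (n + 2) (Qm k m) = 0 := by
  induction m generalizing n with
  | zero =>
    have h1 : Qm k 0 = ⊤ := by
      rw [Ideal.eq_top_iff_one]
      intro b _
      exact Nat.zero_le _
    rw [T_congr Y (n + 2) ((LinearEquiv.ofEq (Qm k 0) ⊤ h1).trans Submodule.topEquiv)]
    exact T_flat Y (n + 1)
  | succ m ih =>
    refine T_right Y (qf m) (qg m) (exact_q m) (qf_injective m) (qg_surjective m) (n + 1)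
      (T_flat Y n) ?_
    refine T_mid Y (LinearMap.inl _ (Qm k m) (MvPolynomial (Fin 12) k))
      (LinearMap.snd _ (Qm k m) (MvPolynomial (Fin 12) k)) ?_ LinearMap.inl_injective
      LinearMap.snd_surjective (n + 2) (ih n) (T_flat Y (n + 1))
    exact Function.Exact.inl_snd

theorem PI_le_PQ (l : ℕ) : up k (PI l) (PI_up l) ≤ Qm k (3 * l) := by
  intro f hf b hb
  exact (hf b hb).1

/-- Comparison map `S → Q_{3l} / I^l`. -/
noncomputable def cmp (l : ℕ) : MvPolynomial (Fin 12) k →ₗ[MvPolynomial (Fin 12) k]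
    (Qm k (3 * l) ⧸ LinearMap.range (Submodule.inclusion (PI_le_PQ (k := k) l))) :=
  LinearMap.toSpanSingleton _ _ (Submodule.mkQ _ ⟨monomial (ge 1 (3 * l - 1)) 1, by
    classical
    intro b hb
    rw [coeff_monomial] at hb
    split_ifs at hb with h
    · rw [← h]
      unfold PQ
      rw [ge_10, ge_11]
      omega
    · exact absurd rfl hb⟩)

theorem coeff_mul_mono (l : ℕ) (f : MvPolynomial (Fin 12) k) (b : Fin 12 →₀ ℕ) :
    coeff (b + ge 1 (3 * l - 1)) (f * monomial (ge 1 (3 * l - 1)) 1) = coeff b f := by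
  rw [coeff_mul_monomial, mul_one]

theorem cmp_eq_zero_iff (l : ℕ) (hl : 1 ≤ l) (f : MvPolynomial (Fin 12) k) :
    cmp l f = 0 ↔ f ∈ up k PB PB_up := by
  classical
  have h1 : cmp l f = 0 ↔ f * monomial (ge 1 (3 * l - 1)) 1 ∈ up k (PI l) (PI_up l) := by
    unfold cmp
    rw [LinearMap.toSpanSingleton_apply, ← map_smul, Submodule.mkQ_apply,
      Submodule.Quotient.mk_eq_zero, LinearMap.mem_range]
    constructor
    · rintro ⟨⟨g, hg⟩, h2⟩
      have h3 := congrArg Subtype.val h2
      change g = f * monomial (ge 1 (3 * l - 1)) 1 at h3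
      rw [← h3]
      exact hg
    · intro h2
      exact ⟨⟨_, h2⟩, rfl⟩
  rw [h1]
  have hother : ∀ x, x ≠ 10 → x ≠ 11 → ge 1 (3 * l - 1) x = 0 := fun x h h' =>
    ge_other _ _ x h h'
  constructor
  · intro h2 b hb
    rw [← coeff_mul_mono l f b] at hb
    have h3 := h2 _ hb
    by_cases h10 : b 10 = 0
    · by_cases h11 : b 11 = 0
      · right; right
        apply PA_of_add b _ hother
        apply h3.2
        · rw [Finsupp.add_apply, ge_10, h10]
        · rw [Finsupp.add_apply, ge_11, h11]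
          omega
      · exact Or.inl h11
    · exact Or.inr (Or.inl h10)
  · intro h2 c hc
    rw [coeff_mul_monomial'] at hc
    split_ifs at hc with h3
    · rw [mul_one] at hc
      have h4 := h2 _ hc
      have h10 := h3 10
      have h11 := h3 11
      rw [ge_10] at h10
      rw [ge_11] at h11
      refine ⟨by omega, fun h5 h6 => ?_⟩
      rcases h4 with h4 | h4 | h4
      · rw [Finsupp.tsub_apply, ge_11] at h4
        omega
      · rw [Finsupp.tsub_apply, ge_10] at h4
        omega
      · exact PA_up _ _ h4 tsub_le_self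
    · exact absurd rfl hc

theorem cmp_surjective (l : ℕ) : Function.Surjective (cmp (k := k) l) := by
  classical
  intro m
  obtain ⟨⟨h, hh⟩, rfl⟩ := Submodule.mkQ_surjective _ m
  obtain ⟨g, hg⟩ := exists_lift (ge 1 (3 * l - 1))
    (proj (fun b => b 10 = 1 ∧ b 11 + 1 = 3 * l) h) (fun b hb => by
      rw [coeff_proj] at hb
      split_ifs at hb with h1
      · intro x
        by_cases h10 : x = 10
        · subst h10
          rw [ge_10]
          omega
        · by_cases h11 : x = 11
          · subst h11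
            rw [ge_11]
            omega
          · rw [ge_other _ _ _ h10 h11]
            exact Nat.zero_le _
      · exact absurd rfl hb)
  refine ⟨g, ?_⟩
  unfold cmp
  rw [LinearMap.toSpanSingleton_apply, ← map_smul, ← sub_eq_zero, ← map_sub, Submodule.mkQ_apply,
      Submodule.Quotient.mk_eq_zero, LinearMap.mem_range]
  refine ⟨⟨g * monomial (ge 1 (3 * l - 1)) 1 - h, ?_⟩, rfl⟩
  rw [mul_comm, ← hg]
  intro b hb
  rw [coeff_sub, coeff_proj] at hb
  split_ifs at hb with h1
  · rw [sub_self] at hb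
    exact absurd rfl hb
  · rw [zero_sub, neg_ne_zero] at hb
    refine ⟨hh b hb, fun h2 h3 => ?_⟩
    exact absurd ⟨h2, h3⟩ h1

/-- The quotient is `S / (A, u, v)`. -/
noncomputable def cmpEquiv (l : ℕ) (hl : 1 ≤ l) :
    (MvPolynomial (Fin 12) k ⧸ up k PB PB_up) ≃ₗ[MvPolynomial (Fin 12) k]
    (Qm k (3 * l) ⧸ LinearMap.range (Submodule.inclusion (PI_le_PQ (k := k) l))) :=
  (Submodule.quotEquivOfEq _ _ (by
    ext f
    rw [LinearMap.mem_ker]
    exact (cmp_eq_zero_iff l hl f).symm)).trans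
    (LinearMap.quotKerEquivOfSurjective (cmp l) (cmp_surjective l))

theorem T_PI (l : ℕ) (hl : 1 ≤ l) (n : ℕ) :
    T Y (n + 2) (up k (PI l) (PI_up l)) = T Y (n + 3) (MvPolynomial (Fin 12) k ⧸ up k PB PB_up) := by
  rw [T_congr Y (n + 3) (cmpEquiv l hl)]
  refine (T_shift Y (Submodule.inclusion (PI_le_PQ (k := k) l)) (Submodule.mkQ _) ?_
    (Submodule.inclusion_injective _) (Submodule.mkQ_surjective _) (n + 2) (T_Qm Y _ n)
    (T_Qm Y _ (n + 1))).symm
  exact LinearMap.exact_map_mkQ_range _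

theorem T_PB (hY : ∀ (i : Fin 12) (y : Y), (X i : MvPolynomial (Fin 12) k) • y = 0) (n : ℕ) :
    T Y (n + 1) (MvPolynomial (Fin 12) k ⧸ up k PB PB_up) =
      T Y (n + 1) (MvPolynomial (Fin 12) k ⧸ up k PAu PAu_up) +
      T Y n (MvPolynomial (Fin 12) k ⧸ up k PAu PAu_up) := by
  refine T_up_regular Y 11 (hY 11) PAu PB PAu_up PB_up ?_ (fun b => Iff.rfl) n
  intro b hb
  rcases hb with h | h
  · left
    rwa [Finsupp.add_apply, Finsupp.single_eq_of_ne (by decide), add_zero] at h
  · right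
    apply PA_of_add b _ _ h
    intro x _ h11
    rw [Finsupp.single_eq_of_ne h11]

theorem T_PAu (hY : ∀ (i : Fin 12) (y : Y), (X i : MvPolynomial (Fin 12) k) • y = 0) (n : ℕ) :
    T Y (n + 1) (MvPolynomial (Fin 12) k ⧸ up k PAu PAu_up) =
      T Y (n + 1) (MvPolynomial (Fin 12) k ⧸ up k PA PA_up) +
      T Y n (MvPolynomial (Fin 12) k ⧸ up k PA PA_up) := by
  refine T_up_regular Y 10 (hY 10) PA PAu PA_up PAu_up ?_ (fun b => Iff.rfl) n
  intro b hb
  apply PA_of_add b _ _ hb
  intro x h10 _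
  rw [Finsupp.single_eq_of_ne h10]

theorem Am_eq : Am (k := k) av = up k PA PA_up := by
  unfold Am
  rw [← span_eq_up (Set.range av) PA PA_up]
  · congr 1
    ext f
    simp
  · intro b
    simp [PA]

end seq

end Pool.Agent.MP_76aa63_al
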