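import Mathlib
import Pool.Agent.MP_76aa63_al.Seq

set_option autoImplicit false

namespace Pool.Agent.MP_76aa63_al

open Finset MvPolynomial TensorProduct

section final

variable {k : Type} [Field k]

theorem labF_four : ∀ τ : Finset (Fin 6), τ.card = 4 → ∀ i, labF {0} i ≤ labF τ i := by
  decide +kernel

theorem hlab : ∀ τ : Finset (Fin 6), τ.card = 2 + 2 → av 0 ≤ lab av τ := by
  intro τ hτ i
  rw [lab_av, av_apply]
  exact labF_four τ hτ i

theorem labF_two : ∀ τ : Finset (Fin 6), τ.card = 2 → ∀ v, v ∉ τ →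
    labF (insert v τ) ≠ labF τ := by
  decide +kernel

variable (Y : ModuleCat.{0} (MvPolynomial (Fin 12) k))

/-- The quotient `S / A`. -/
abbrev SA (k : Type) [Field k] : Type := MvPolynomial (Fin 12) k ⧸ up k PA PA_up

theorem T_SA (n : ℕ) : T Y (n + 2) (SA k) = T Y (n + 1) (Am (k := k) av) := by
  unfold SA
  rw [← Am_eq]
  exact T_quot_succ Y n _

theorem T_SA_large (n : ℕ) : T Y (n + 5) (SA k) = 0 := by
  rw [T_SA Y (n + 3), T_Am av Y (n + 2), T_Zm av Y (n + 1) 1 le_rfl]
  exact T_Zm_top av Y 0 (fun v => Fin.zero_le v) 2 (by omega) hlab n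

theorem T_SA_four : T Y 4 (SA k) =
    Module.length (MvPolynomial (Fin 12) k) (KY (k := k) av Y (0 : Fin 6) 3) := by
  rw [T_SA Y 2, T_Am av Y 1, T_Zm av Y 0 1 le_rfl,
    T_Zm_one av Y 0 (fun v => Fin.zero_le v) 2 (by omega) hlab, length_ker_rTensor_Phi]

theorem rTensor_zInc (hY : ∀ (i : Fin 12) (y : Y), (X i : MvPolynomial (Fin 12) k) • y = 0) :
    LinearMap.rTensor Y (zInc (k := k) av 2) = 0 := by
  apply TensorProduct.ext'
  intro z y
  rw [LinearMap.rTensor_tmul, LinearMap.zero_apply]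
  apply theta_injective Y 2
  rw [theta_tmul, map_zero]
  funext τ
  rw [Pi.zero_apply]
  change z.1 τ • y = 0
  have hz := (mem_Zm av).1 z.2
  by_cases hτ : τ.card = 2
  · obtain ⟨c', _, h2, _⟩ := taylor_exact av 2 (by omega) z.1 hz.1 hz.2
    rw [← h2]
    unfold dd
    rw [Finset.sum_smul]
    apply Finset.sum_eq_zero
    intro v hv
    rw [Finset.mem_compl] at hv
    rw [smul_assoc, mul_comm, mul_smul, monomial_smul_eq_zero hY, smul_zero, smul_zero]
    intro h3
    apply labF_two τ hτ v hv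
    rw [← lab_eq_iff]
    apply le_antisymm
    · rw [← tsub_eq_zero_iff_le]
      exact h3
    · exact lab_mono av (Finset.subset_insert v τ)
  · rw [hz.1 τ hτ, zero_smul]

/-- Chains of degree `j` as a free module. -/
noncomputable def cmEquiv (j : ℕ) : Cm (Fin 6) (Fin 12) k j ≃ₗ[MvPolynomial (Fin 12) k]
    ({τ : Finset (Fin 6) // τ.card = j} → MvPolynomial (Fin 12) k) where
  toFun c := fun τ => c.1 τ.1
  map_add' c d := rfl
  map_smul' r c := rfl
  invFun y := ⟨fun τ => if h : τ.card = j then y ⟨τ, h⟩ else 0, fun τ hτ => dif_neg hτ⟩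
  left_inv c := by
    apply Subtype.ext
    funext τ
    change (if h : τ.card = j then c.1 τ else 0) = c.1 τ
    split_ifs with h
    · rfl
    · exact (c.2 τ h).symm
  right_inv y := by
    funext τ
    exact dif_pos τ.2

theorem T_zero_pi (ι : Type) [Fintype ι] [DecidableEq ι]
    (h1 : Module.length (MvPolynomial (Fin 12) k) Y = 1) :
    T Y 0 (ι → MvPolynomial (Fin 12) k) = Fintype.card ι := by
  rw [T_zero, (eL (k := k) (σ := Fin 12) Y ι).length_eq, Module.length_pi_of_fintype]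
  simp [h1]

theorem T_SA_three (hY : ∀ (i : Fin 12) (y : Y), (X i : MvPolynomial (Fin 12) k) • y = 0)
    (h1 : Module.length (MvPolynomial (Fin 12) k) Y = 1) :
    T Y 3 (SA k) + 10 = T Y 4 (SA k) + 20 := by
  have h2 : T Y 3 (SA k) = T Y 0 (Zm (k := k) av 2) := by
    rw [T_SA Y 1, T_Am av Y 0, T_zero,
      T_one Y (zInc av 2) (dRes av 1) (exact_zInc_dRes av 1) (zInc_injective av 2)
        (dRes_surjective av 1 le_rfl) (T_flat Y 0), rTensor_zInc Y hY, LinearMap.ker_zero]
    exact Submodule.topEquiv.length_eq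
  have h3 := T_four Y (Phi av 0 3) (dRes av 2) (exact_Phi (k := k) av 0 2
    (fun v => Fin.zero_le v) hlab) (Phi_injective av 0 3) (dRes_surjective av 2 (by omega))
    (T_flat Y 0)
  have h4 : T Y 4 (SA k) = T Y 1 (Zm (k := k) av 2) := by
    rw [T_SA Y 2, T_Am av Y 1, T_Zm av Y 0 1 le_rfl]
  rw [T_zero_pi Y _ h1, T_congr Y 0 (cmEquiv 3), T_zero_pi Y _ h1] at h3
  have h5 : Fintype.card (Top (0 : Fin 6) 3) = 10 := by decide +kernel
  have h6 : Fintype.card {τ : Finset (Fin 6) // τ.card = 3} = 20 := by decide +kernel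
  rw [h5, h6] at h3
  rw [h2, h4, add_comm]
  exact_mod_cast h3

theorem T_B_six (hY : ∀ (i : Fin 12) (y : Y), (X i : MvPolynomial (Fin 12) k) • y = 0) :
    T Y 6 (MvPolynomial (Fin 12) k ⧸ up k PB PB_up) = T Y 4 (SA k) := by
  rw [T_PB Y hY 5, T_PAu Y hY 5, T_PAu Y hY 4, T_SA_large Y 1, T_SA_large Y 0]
  simp

theorem T_B_five (hY : ∀ (i : Fin 12) (y : Y), (X i : MvPolynomial (Fin 12) k) • y = 0) :
    T Y 5 (MvPolynomial (Fin 12) k ⧸ up k PB PB_up) =
      T Y 4 (SA k) + (T Y 4 (SA k) + T Y 3 (SA k)) := by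
  rw [T_PB Y hY 4, T_PAu Y hY 4, T_PAu Y hY 3, T_SA_large Y 0]
  simp

/-- The residue field module. -/
abbrev Res (k : Type) [Field k] (n : ℕ) : Type :=
  MvPolynomial (Fin n) k ⧸ Ideal.span (Set.range (X : Fin n → MvPolynomial (Fin n) k))

theorem X_smul_res (n : ℕ) (i : Fin n) (y : Res k n) :
    (X i : MvPolynomial (Fin n) k) • y = 0 := by
  obtain ⟨f, rfl⟩ := Submodule.mkQ_surjective _ y
  rw [← map_smul, Submodule.mkQ_apply, Submodule.Quotient.mk_eq_zero, smul_eq_mul]
  exact Ideal.mul_mem_right _ _ (Ideal.subset_span ⟨i, rfl⟩)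

theorem span_X_eq (n : ℕ) : Ideal.span (Set.range (X : Fin n → MvPolynomial (Fin n) k)) =
    RingHom.ker (constantCoeff : MvPolynomial (Fin n) k →+* k) := by
  ext f
  have h1 : (Set.range (X : Fin n → MvPolynomial (Fin n) k)) = X '' Set.univ := by
    rw [Set.image_univ]
  rw [h1, mem_ideal_span_X_image, RingHom.mem_ker]
  constructor
  · intro h
    by_contra h0
    obtain ⟨i, _, hi⟩ := h 0 (mem_support_iff.2 h0)
    exact hi rfl
  · intro h m hm
    by_contra h2
    push Not at h2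
    have h3 : m = 0 := by
      ext i
      exact h2 i (Set.mem_univ i)
    rw [mem_support_iff, h3] at hm
    exact hm h

theorem length_res (n : ℕ) : Module.length (MvPolynomial (Fin n) k) (Res k n) = 1 := by
  rw [Module.length_eq_one_iff, isSimpleModule_iff_isCoatom, span_X_eq]
  have h1 : (RingHom.ker (constantCoeff : MvPolynomial (Fin n) k →+* k)).IsMaximal :=
    RingHom.ker_isMaximal_of_surjective _ (fun c => ⟨C c, by simp⟩)
  exact h1.out

theorem T_SA_four_two (h2 : (2 : k) = 0) : T (ModuleCat.of (MvPolynomial (Fin 12) k) (Res k 12)) 4 (SA k) = 1 := by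
  rw [T_SA_four, KY_two (X_smul_res 12) _]
  · exact length_res 12
  · intro y
    have h3 : (2 : MvPolynomial (Fin 12) k) = 0 := by
      have h4 : (C (2 : k) : MvPolynomial (Fin 12) k) = 0 := by rw [h2, C_0]
      rw [← h4]
      exact (map_ofNat C 2).symm
    rw [← two_smul (MvPolynomial (Fin 12) k) y, h3, zero_smul]

theorem T_SA_four_ne_two (h2 : (2 : k) ≠ 0) : T (ModuleCat.of (MvPolynomial (Fin 12) k) (Res k 12)) 4 (SA k) = 0 := by
  rw [T_SA_four, KY_zero (X_smul_res 12) _]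
  intro y hy
  have h3 : (2 : MvPolynomial (Fin 12) k) • y = 0 := by
    rw [two_smul]
    nth_rewrite 2 [hy]
    exact add_neg_cancel y
  have h4 : (C (2⁻¹ : k) * 2 : MvPolynomial (Fin 12) k) = 1 := by
    have h5 : (2 : MvPolynomial (Fin 12) k) = C (2 : k) := (map_ofNat C 2).symm
    rw [h5, ← C_mul, inv_mul_cancel₀ h2, C_1]
  calc y = (C (2⁻¹ : k) * 2 : MvPolynomial (Fin 12) k) • y := by rw [h4, one_smul]
    _ = 0 := by rw [mul_smul, h3, smul_zero]

end final

end Pool.Agent.MP_76aa63_al
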